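import Mathlib

set_option autoImplicit false

namespace Pool.Agent.Helper426GSC

/-- the k-dual of the algebra A, an A-bimodule -/
def QD (k A : Type) [Field k] [Ring A] [Algebra k A] : Type := A →ₗ[k] k

section
variable {k A : Type} [Field k] [Ring A] [Algebra k A]

instance : AddCommGroup (QD k A) := inferInstanceAs (AddCommGroup (A →ₗ[k] k))

/-- evaluation -/
def ev (f : QD k A) (x : A) : k := (show A →ₗ[k] k from f) x

/-- constructor -/
def mkQ (f : A →ₗ[k] k) : QD k A := f

theorem ev_mkQ (f : A →ₗ[k] k) (x : A) : ev (mkQ f) x = f x := rfl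

theorem qd_ext {f g : QD k A} (h : ∀ x, ev f x = ev g x) : f = g := LinearMap.ext h

theorem ev_add (f g : QD k A) (x : A) : ev (f + g) x = ev f x + ev g x := rfl

theorem ev_zero (x : A) : ev (0 : QD k A) x = 0 := rfl

theorem ev_add' (f : QD k A) (x y : A) : ev f (x + y) = ev f x + ev f y :=
  (show A →ₗ[k] k from f).map_add x y

theorem ev_zero' (f : QD k A) : ev f 0 = 0 := (show A →ₗ[k] k from f).map_zero

theorem ev_smul' (f : QD k A) (c : k) (x : A) : ev f (c • x) = c * ev f x :=
  (show A →ₗ[k] k from f).map_smul c x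

instance : SMul A (QD k A) :=
  ⟨fun a f => mkQ ((show A →ₗ[k] k from f) ∘ₗ LinearMap.mulRight k a)⟩

instance : SMul Aᵐᵒᵖ (QD k A) :=
  ⟨fun a f => mkQ ((show A →ₗ[k] k from f) ∘ₗ LinearMap.mulLeft k a.unop)⟩

theorem ev_smul (a : A) (f : QD k A) (x : A) : ev (a • f) x = ev f (x * a) := rfl

theorem ev_op (a : Aᵐᵒᵖ) (f : QD k A) (x : A) : ev (a • f) x = ev f (a.unop * x) := rfl

instance : Module A (QD k A) where
  one_smul f := qd_ext fun x => by rw [ev_smul, mul_one]
  mul_smul a b f := qd_ext fun x => by rw [ev_smul, ev_smul, ev_smul, mul_assoc]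
  smul_zero a := qd_ext fun x => by rw [ev_smul, ev_zero, ev_zero]
  smul_add a f g := qd_ext fun x => by rw [ev_smul, ev_add, ev_add, ev_smul, ev_smul]
  add_smul a b f := qd_ext fun x => by rw [ev_smul, ev_add, ev_smul, ev_smul, mul_add, ev_add']
  zero_smul f := qd_ext fun x => by rw [ev_smul, ev_zero, mul_zero, ev_zero']

instance : Module Aᵐᵒᵖ (QD k A) where
  one_smul f := qd_ext fun x => by rw [ev_op, MulOpposite.unop_one, one_mul]
  mul_smul a b f := qd_ext fun x => by
    rw [ev_op, ev_op, ev_op, MulOpposite.unop_mul, mul_assoc]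
  smul_zero a := qd_ext fun x => by rw [ev_op, ev_zero, ev_zero]
  smul_add a f g := qd_ext fun x => by rw [ev_op, ev_add, ev_add, ev_op, ev_op]
  add_smul a b f := qd_ext fun x => by
    rw [ev_op, ev_add, ev_op, ev_op, MulOpposite.unop_add, add_mul, ev_add']
  zero_smul f := qd_ext fun x => by rw [ev_op, ev_zero, MulOpposite.unop_zero, zero_mul, ev_zero']

instance : SMulCommClass A Aᵐᵒᵖ (QD k A) :=
  ⟨fun a b f => qd_ext fun x => by rw [ev_smul, ev_op, ev_op, ev_smul, mul_assoc]⟩

/-- the dual of A is injective as a left module -/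
theorem qd_injective : Module.Injective A (QD k A) := by
  apply Module.Baer.injective
  intro I u
  let u0 : (I.restrictScalars k) →ₗ[k] k :=
    { toFun := fun x => ev (u ⟨x.1, x.2⟩) 1
      map_add' := fun x y => by
        change ev (u (⟨x.1, x.2⟩ + ⟨y.1, y.2⟩)) 1 = _
        rw [map_add, ev_add]
      map_smul' := fun c x => by
        have h1 : (⟨c • x.1, (I.restrictScalars k).smul_mem c x.2⟩ : I) =
            (algebraMap k A c) • (⟨x.1, x.2⟩ : I) := Subtype.ext (Algebra.smul_def c x.1)
        change ev (u ⟨c • x.1, (I.restrictScalars k).smul_mem c x.2⟩) 1 = c * ev (u ⟨x.1, x.2⟩) 1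
        rw [h1, map_smul, ev_smul, one_mul, ← mul_one (algebraMap k A c), ← Algebra.smul_def,
          ev_smul'] }
  obtain ⟨g, hg⟩ := u0.exists_extend
  let v : A →ₗ[A] QD k A :=
    { toFun := fun x => mkQ (g ∘ₗ LinearMap.mulRight k x)
      map_add' := fun x y => qd_ext fun r => by
        rw [ev_add, ev_mkQ, ev_mkQ, ev_mkQ]
        change g (r * (x + y)) = g (r * x) + g (r * y)
        rw [mul_add, map_add]
      map_smul' := fun a x => qd_ext fun r => by
        rw [RingHom.id_apply, ev_smul, ev_mkQ, ev_mkQ]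
        change g (r * (a * x)) = g (r * a * x)
        rw [mul_assoc] }
  refine ⟨v, fun x hx => qd_ext fun r => ?_⟩
  change g (r * x) = ev (u ⟨x, hx⟩) r
  have h2 : g (r * x) = u0 ⟨r * x, I.mul_mem_left r hx⟩ := by
    rw [← hg]
    rfl
  rw [h2]
  change ev (u ⟨r * x, I.mul_mem_left r hx⟩) 1 = ev (u ⟨x, hx⟩) r
  have h3 : (⟨r * x, I.mul_mem_left r hx⟩ : I) = r • (⟨x, hx⟩ : I) := rfl
  rw [h3, map_smul, ev_smul, one_mul]

/-- the right module structure is the left one of the opposite algebra -/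
def opIso : QD k A ≃ₗ[Aᵐᵒᵖ] QD k Aᵐᵒᵖ where
  toFun f := mkQ ((show A →ₗ[k] k from f) ∘ₗ (MulOpposite.opLinearEquiv k).symm.toLinearMap)
  invFun f := mkQ ((show Aᵐᵒᵖ →ₗ[k] k from f) ∘ₗ (MulOpposite.opLinearEquiv k).toLinearMap)
  left_inv f := rfl
  right_inv f := rfl
  map_add' f g := rfl
  map_smul' a f := qd_ext fun x => by
    rw [RingHom.id_apply, ev_smul, ev_mkQ, ev_mkQ]
    change ev (a • f) x.unop = ev f (x * a).unop
    rw [ev_op, MulOpposite.unop_mul]

theorem qd_injective_op : Module.Injective Aᵐᵒᵖ (QD k A) := by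
  have h : Module.Injective Aᵐᵒᵖ (QD k Aᵐᵒᵖ) := qd_injective
  refine ⟨fun X Y _ _ _ _ f hf u => ?_⟩
  obtain ⟨v, hv⟩ := h.out f hf (opIso.toLinearMap ∘ₗ u)
  refine ⟨opIso.symm.toLinearMap ∘ₗ v, fun x => ?_⟩
  change opIso.symm (v (f x)) = u x
  rw [hv]
  exact opIso.symm_apply_apply (u x)

variable [Module.Finite k A]

theorem qd_finite : Module.Finite A (QD k A) := by
  have h1 : Module.Finite k (A →ₗ[k] k) := inferInstance
  obtain ⟨n, s, hs⟩ := Module.Finite.exists_fin (R := k) (M := A →ₗ[k] k)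
  refine Module.Finite.of_surjective (Fintype.linearCombination A (fun i => mkQ (s i))) ?_
  intro f
  have hf : (show A →ₗ[k] k from f) ∈ Submodule.span k (Set.range s) := by
    rw [hs]
    trivial
  obtain ⟨c, hc⟩ := (Submodule.mem_span_range_iff_exists_fun _).mp hf
  refine ⟨fun i => algebraMap k A (c i), ?_⟩
  rw [Fintype.linearCombination_apply]
  have h2 : ∀ i, (algebraMap k A (c i) • mkQ (s i) : QD k A) = mkQ (c i • s i) := by
    intro i
    refine qd_ext fun x => ?_
    rw [ev_smul, ev_mkQ, ev_mkQ, ← Algebra.commutes, ← Algebra.smul_def, map_smul]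
    rfl
  rw [Finset.sum_congr rfl fun i _ => h2 i]
  exact hc

theorem qd_finite_op : Module.Finite Aᵐᵒᵖ (QD k A) := by
  have h1 : Module.Finite k Aᵐᵒᵖ := Module.Finite.equiv (MulOpposite.opLinearEquiv k)
  have h2 : Module.Finite Aᵐᵒᵖ (QD k Aᵐᵒᵖ) := qd_finite
  exact Module.Finite.equiv opIso.symm

/-- finitely generated left modules embed in powers of the dual -/
theorem qd_embedding (M : Type) [AddCommGroup M] [Module A M] [Module.Finite A M] :
    ∃ (n : ℕ) (e : M →ₗ[A] (Fin n → QD k A)), Function.Injective e := by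
  let _ : Module k M := Module.compHom M (algebraMap k A)
  have hst : IsScalarTower k A M := ⟨fun c r x => by
    rw [Algebra.smul_def, mul_smul]
    rfl⟩
  have hfM : Module.Finite k M := Module.Finite.trans A M
  let b := Module.finBasis k M
  let v : (M →ₗ[k] k) → (M →ₗ[A] QD k A) := fun φ =>
    { toFun := fun x => mkQ (φ ∘ₗ LinearMap.toSpanSingleton A M x |>.restrictScalars k)
      map_add' := fun x y => qd_ext fun r => by
        rw [ev_add, ev_mkQ, ev_mkQ, ev_mkQ]
        change φ (r • (x + y)) = φ (r • x) + φ (r • y)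
        rw [smul_add, map_add]
      map_smul' := fun a x => qd_ext fun r => by
        rw [RingHom.id_apply, ev_smul, ev_mkQ, ev_mkQ]
        change φ (r • a • x) = φ ((r * a) • x)
        rw [mul_smul] }
  refine ⟨Module.finrank k M, LinearMap.pi fun i => v (b.coord i), ?_⟩
  rw [← LinearMap.ker_eq_bot, eq_bot_iff]
  intro x hx
  have h1 : ∀ i, b.coord i x = 0 := by
    intro i
    have h2 : v (b.coord i) x = 0 := congrFun hx i
    have h3 : ev (v (b.coord i) x) 1 = 0 := by rw [h2, ev_zero]
    have h4 : ev (v (b.coord i) x) 1 = b.coord i ((1 : A) • x) := rfl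
    rw [h4, one_smul] at h3
    exact h3
  rw [Submodule.mem_bot]
  exact b.forall_coord_eq_zero_iff.mp h1

theorem qd_embedding_op (M : Type) [AddCommGroup M] [Module Aᵐᵒᵖ M] [Module.Finite Aᵐᵒᵖ M] :
    ∃ (n : ℕ) (e : M →ₗ[Aᵐᵒᵖ] (Fin n → QD k A)), Function.Injective e := by
  have h1 : Module.Finite k Aᵐᵒᵖ := Module.Finite.equiv (MulOpposite.opLinearEquiv k)
  obtain ⟨n, e, he⟩ := qd_embedding (k := k) (A := Aᵐᵒᵖ) M
  refine ⟨n, (LinearMap.pi fun i => (opIso (k := k) (A := A)).symm.toLinearMap ∘ₗ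
    LinearMap.proj i) ∘ₗ e, fun x y hxy => he ?_⟩
  funext i
  have h2 : (opIso (k := k) (A := A)).symm (e x i) = (opIso (k := k) (A := A)).symm (e y i) :=
    congrFun hxy i
  exact (opIso (k := k) (A := A)).symm.injective h2

/-- the double centralizer property -/
theorem qd_end : Nonempty (A ≃ₗ[Aᵐᵒᵖ] (QD k A →ₗ[A] QD k A)) := by
  let F : A →ₗ[Aᵐᵒᵖ] (QD k A →ₗ[A] QD k A) :=
    { toFun := fun a =>
        { toFun := fun f => MulOpposite.op a • f
          map_add' := fun f g => smul_add _ _ _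
          map_smul' := fun r f => (smul_comm r (MulOpposite.op a) f).symm }
      map_add' := fun a b => LinearMap.ext fun f => by
        change MulOpposite.op (a + b) • f = MulOpposite.op a • f + MulOpposite.op b • f
        rw [MulOpposite.op_add, add_smul]
      map_smul' := fun r a => LinearMap.ext fun f => by
        change MulOpposite.op (a * r.unop) • f = r • MulOpposite.op a • f
        rw [MulOpposite.op_mul, MulOpposite.op_unop, mul_smul] }
  have hF : ∀ a f x, ev (F a f) x = ev f (a * x) := fun a f x => rfl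
  refine ⟨LinearEquiv.ofBijective F ⟨?_, ?_⟩⟩
  · rw [← LinearMap.ker_eq_bot, eq_bot_iff]
    intro a ha
    rw [Submodule.mem_bot]
    have h1 : ∀ f : A →ₗ[k] k, f a = 0 := by
      intro f
      have h2 : F a (mkQ f) = 0 := LinearMap.congr_fun ha (mkQ f)
      have h3 := hF a (mkQ f) 1
      rw [h2, ev_zero, mul_one] at h3
      exact h3.symm
    exact (Module.forall_dual_apply_eq_zero_iff k a).mp h1
  · intro T
    let φ : (A →ₗ[k] k) →ₗ[k] k :=
      { toFun := fun f => ev (T (mkQ f)) 1
        map_add' := fun f g => by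
          change ev (T (mkQ f + mkQ g)) 1 = _
          rw [map_add, ev_add]
        map_smul' := fun c f => by
          have h1 : mkQ (c • f) = (algebraMap k A c • mkQ f : QD k A) := qd_ext fun x => by
            rw [ev_smul, ev_mkQ, ev_mkQ, ← Algebra.commutes, ← Algebra.smul_def, map_smul]
            rfl
          change ev (T (mkQ (c • f))) 1 = c * ev (T (mkQ f)) 1
          rw [h1, map_smul, ev_smul, one_mul, ← mul_one (algebraMap k A c), ← Algebra.smul_def,
            ev_smul'] }
    obtain ⟨a, ha⟩ := (Module.bijective_dual_eval k A).2 φ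
    have ha' : ∀ f : A →ₗ[k] k, f a = ev (T (mkQ f)) 1 := fun f => LinearMap.congr_fun ha f
    refine ⟨a, LinearMap.ext fun f => qd_ext fun x => ?_⟩
    rw [hF]
    have h2 := ha' (show A →ₗ[k] k from (x • f : QD k A))
    have h3 : mkQ (show A →ₗ[k] k from (x • f : QD k A)) = x • f := rfl
    rw [h3, map_smul, ev_smul, one_mul] at h2
    exact h2

end

end Pool.Agent.Helper426GSC
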