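import Pool.Agent.Helper426_GSC.Uniform

set_option autoImplicit false
open CategoryTheory Pool.Agent.Helper426Tach Pool.Agent.Helper426TauT

namespace Pool.Agent.Helper426GSC

/-- InAdd M X: the module X is a direct summand of a finite direct sum of copies of M. -/
def InAdd {R : Type} [Ring R] (M X : ModuleCat.{0} R) : Prop :=
  ∃ (n : ℕ) (f : X →ₗ[R] (Fin n → M)) (g : (Fin n → M) →ₗ[R] X), g ∘ₗ f = LinearMap.id

/-- ClusterTilting d M: the module M is d-cluster-tilting, that is, M is finitely generated and for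
every finitely generated module X the conditions X ∈ add M, Ext^i(M, X) = 0 for 0 < i < d, and
Ext^i(X, M) = 0 for 0 < i < d are equivalent. -/
def ClusterTilting {R : Type} [Ring R] [HasExt.{0} (ModuleCat.{0} R)] (d : ℕ)
    (M : ModuleCat.{0} R) : Prop :=
  Module.Finite R M ∧ ∀ X : ModuleCat.{0} R, Module.Finite R X →
    (InAdd M X ↔ ∀ i, 0 < i → i < d → Subsingleton (Abelian.Ext.{0} M X i)) ∧
    (InAdd M X ↔ ∀ i, 0 < i → i < d → Subsingleton (Abelian.Ext.{0} X M i))

/-- a ring all of whose finitely generated modules are projective is semisimple -/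
theorem semisimple_of_proj {R : Type} [Ring R]
    (h : ∀ X : ModuleCat.{0} R, Module.Finite R X → Module.Projective R X) :
    IsSemisimpleRing R := by
  have h1 : ComplementedLattice (Submodule R R) := by
    refine ⟨fun I => ?_⟩
    have h2 : Module.Projective R (R ⧸ I) := h (ModuleCat.of R (R ⧸ I)) (by
      change Module.Finite R (R ⧸ I)
      infer_instance)
    obtain ⟨s, hs⟩ := Module.projective_lifting_property I.mkQ LinearMap.id I.mkQ_surjective
    have hs' : ∀ y, I.mkQ (s y) = y := fun y => LinearMap.congr_fun hs y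
    let f : R →ₗ[R] I :=
      { toFun := fun x => ⟨x - s (I.mkQ x), by
          rw [← Submodule.Quotient.mk_eq_zero I]
          change I.mkQ (x - s (I.mkQ x)) = 0
          rw [map_sub, hs', sub_self]⟩
        map_add' := fun x y => Subtype.ext (by
          change (x + y) - s (I.mkQ (x + y)) = (x - s (I.mkQ x)) + (y - s (I.mkQ y))
          rw [map_add, map_add]
          abel)
        map_smul' := fun r x => Subtype.ext (by
          change (r • x) - s (I.mkQ (r • x)) = r • (x - s (I.mkQ x))
          rw [map_smul, map_smul, smul_sub]) }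
    refine ⟨LinearMap.ker f, LinearMap.isCompl_of_proj (f := f) fun x => Subtype.ext ?_⟩
    change x.1 - s (I.mkQ x.1) = x.1
    have h3 : I.mkQ x.1 = 0 := (Submodule.Quotient.mk_eq_zero I).mpr x.2
    rw [h3, map_zero, sub_zero]
  exact @IsSemisimpleModule.mk R _ R _ _ h1

theorem dct_bounded (k : Type) [Field k] (R : Type) [Ring R] [Algebra k R] [Module.Finite k R]
    [HasExt.{0} (ModuleCat.{0} R)] (hR : MixedAlg R) (hss : ¬ IsSemisimpleRing R) :
    ∃ b : ℕ, ∀ (d : ℕ) (M : ModuleCat.{0} R), ClusterTilting d M → d ≤ b := by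
  obtain ⟨J, hJ⟩ := mixed_uniform k R hR
  refine ⟨J + 1, fun d M hM => ?_⟩
  by_contra hd
  apply hss
  obtain ⟨hMf, hM⟩ := hM
  have hMM : InAdd M M := by
    refine ⟨1, LinearMap.pi fun _ => LinearMap.id, LinearMap.proj 0, rfl⟩
  have hRf : Module.Finite R (ModuleCat.of R R) := by
    change Module.Finite R R
    infer_instance
  have hRp : Module.Projective R (ModuleCat.of R R) := by
    change Module.Projective R R
    infer_instance
  have hMR : InAdd M (ModuleCat.of R R) := by
    refine (hM (ModuleCat.of R R) hRf).2.mpr fun i hi _ => ?_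
    obtain ⟨i, rfl⟩ : ∃ i', i = i' + 1 := ⟨i - 1, by omega⟩
    exact ez_projective hRp i
  have hproj : Module.Projective R M :=
    hJ M hMf (fun i hi hiJ => (hM M hMf).1.mp hMM i hi (by omega))
      (fun i hi hiJ => (hM (ModuleCat.of R R) hRf).1.mp hMR i hi (by omega))
  refine semisimple_of_proj fun X hX => ?_
  obtain ⟨n, f, g, hgf⟩ := (hM X hX).1.mpr fun i hi _ => by
    obtain ⟨i, rfl⟩ : ∃ i', i = i' + 1 := ⟨i - 1, by omega⟩
    exact ez_projective hproj i
  have h1 : Module.Projective R (Fin n → M) := proj_pi _ fun _ => hproj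
  exact Module.Projective.of_split f g hgf

/-- finiteness of the set of d, for algebras of mixed type -/
theorem dct_finite (k : Type) [Field k] (R : Type) [Ring R] [Algebra k R] [Module.Finite k R]
    [HasExt.{0} (ModuleCat.{0} R)] (hR : MixedAlg R) (hss : ¬ IsSemisimpleRing R) :
    Set.Finite {d : ℕ | 1 ≤ d ∧ ∃ M : ModuleCat.{0} R, ClusterTilting d M} := by
  obtain ⟨b, hb⟩ := dct_bounded k R hR hss
  refine (Set.finite_Iic b).subset ?_
  rintro d ⟨-, M, hM⟩
  exact hb d M hM

end Pool.Agent.Helper426GSC
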