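import Pool.Agent.Helper426_GSC.DCT
import Pool.Agent.Helper426_Tach.Bridge

set_option autoImplicit false
open CategoryTheory Pool.Agent.Helper426Tach Pool.Agent.Helper426TauT

namespace Pool.Agent.Helper426GSC

theorem dct_vanish {R : Type} [Ring R] [HasExt.{0} (ModuleCat.{0} R)] {d : ℕ}
    {M : ModuleCat.{0} R} (hM : ClusterTilting d M) (Q : ModuleCat.{0} R)
    (hQf : Module.Finite R Q) (hQ : Module.Injective R Q) :
    ∀ i, 0 < i → i < d → Subsingleton (Abelian.Ext.{0} Q (ModuleCat.of R R) i) := by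
  obtain ⟨hMf, hM⟩ := hM
  have hRf : Module.Finite R (ModuleCat.of R R) := by
    change Module.Finite R R
    infer_instance
  have hRp : Module.Projective R (ModuleCat.of R R) := by
    change Module.Projective R R
    infer_instance
  have hMR : InAdd M (ModuleCat.of R R) := by
    refine (hM (ModuleCat.of R R) hRf).2.mpr fun i hi _ => ?_
    obtain ⟨i, rfl⟩ : ∃ i', i = i' + 1 := ⟨i - 1, by omega⟩
    exact ez_projective hRp i
  have hMQ : InAdd M Q := by
    refine (hM Q hQf).1.mpr fun i hi _ => ?_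
    obtain ⟨i, rfl⟩ : ∃ i', i = i' + 1 := ⟨i - 1, by omega⟩
    exact ez_injective hQ i
  intro i hi hid
  have h1 := (hM (ModuleCat.of R R) hRf).1.mp hMR i hi hid
  obtain ⟨n, f, g, hgf⟩ := hMQ
  obtain ⟨i, rfl⟩ : ∃ i', i = i' + 1 := ⟨i - 1, by omega⟩
  exact ez_retract (W := ModuleCat.of R (Fin n → M)) f g hgf (ez_pow h1 n)

theorem dct_nonself (k : Type) [Field k] (R : Type) [Ring R] [Algebra k R] [Module.Finite k R]
    [HasExt.{0} (ModuleCat.{0} R)] (hns : ¬ Module.Injective R R)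
    (hyp : (∃ e, BddSyz (ModuleCat.of R (QD k R)) e) ∨
      ∃ (N : ℕ) (S : Finset ℕ) (J : ℕ), 2 * N < S.card ∧ (∀ j ∈ S, 1 ≤ j ∧ j ≤ J) ∧
        (SyzTwoStep (ModuleCat.of R (QD k R)) N S J ∨ CosyzTwoStep R N S J)) :
    Set.Finite {d : ℕ | 1 ≤ d ∧ ∃ M : ModuleCat.{0} R, ClusterTilting d M} := by
  by_contra hinf
  apply hns
  have hinf' : {d : ℕ | 1 ≤ d ∧ ∃ M : ModuleCat.{0} R, ClusterTilting d M}.Infinite := hinf
  obtain ⟨hfin, hart⟩ := center_finite k R
  have hQf : Module.Finite R (ModuleCat.of R (QD k R)) := by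
    change Module.Finite R (QD k R)
    exact qd_finite
  have hQ : Module.Injective R (ModuleCat.of R (QD k R)) := by
    change Module.Injective R (QD k R)
    exact qd_injective
  have hemb : ∀ (M : ModuleCat.{0} R), Module.Finite R M →
      ∃ (n : ℕ) (e : M →ₗ[R] (Fin n → ModuleCat.of R (QD k R))), Function.Injective e :=
    fun M hM => qd_embedding M
  have hAR : ∀ i, 1 ≤ i → Subsingleton (Abelian.Ext.{0} (ModuleCat.of R (QD k R))
      (ModuleCat.of R R) i) := by
    intro i hi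
    obtain ⟨d, ⟨-, M, hM⟩, hd⟩ := hinf'.exists_gt i
    exact dct_vanish hM _ hQf hQ i (by omega) hd
  have hAA : ∀ i, 1 ≤ i → Subsingleton (Abelian.Ext.{0} (ModuleCat.of R (QD k R))
      (ModuleCat.of R (QD k R)) i) := by
    intro i hi
    obtain ⟨i, rfl⟩ : ∃ i', i = i' + 1 := ⟨i - 1, by omega⟩
    exact ez_injective hQ i
  rcases hyp with ⟨e, he⟩ | ⟨N, S, J, hS, hSJ, ⟨G, hG, h⟩ | ⟨G, hG, h⟩⟩
  · exact selfinjective_of_projective _ hQf hQ hemb (main_bdd k R _ hQf e he hAA hAR)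
  · have hproj : Module.Projective R (ModuleCat.of R (QD k R)) :=
      main_syz R hart hfin _ hQf N G hG S J hS hSJ
        (fun j hj Y hY => twoStepSyz_of (h j hj Y (syz_of_isSyz hY))) (fun i hi _ => hAA i hi)
        (fun i hi _ => hAR i hi)
    exact selfinjective_of_projective _ hQf hQ hemb hproj
  · exact main_cosyz2 R hart hfin _ hQf hQ hemb N G hG S J hS hSJ
      (fun j hj Y hY => twoStepCo_of (h j hj Y (cosyz_of_isCosyz hY))) (fun i hi _ => hAR i hi)

end Pool.Agent.Helper426GSC
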