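import Pool.Agent.Helper426_GSC.Semi2

set_option autoImplicit false
open CategoryTheory Pool.Agent.Helper426Tach Pool.Agent.Helper426TauT

namespace Pool.Agent.Helper426GSC

/-! duality with respect to a bimodule -/
section
variable {R S Q : Type} [Ring R] [Ring S] [AddCommGroup Q] [Module R Q] [Module S Q]
  [SMulCommClass R S Q]

/-- precomposition -/
def preG (S Q : Type) [Ring S] [AddCommGroup Q] [Module R Q] [Module S Q] [SMulCommClass R S Q]
    {M N : ModuleCat.{0} R} (f : M →ₗ[R] N) : (N →ₗ[R] Q) →ₗ[S] (M →ₗ[R] Q) where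
  toFun u := u ∘ₗ f
  map_add' _ _ := rfl
  map_smul' _ _ := rfl

/-- the dual with values in Q -/
abbrev HG (S Q : Type) [Ring S] [AddCommGroup Q] [Module R Q] [Module S Q] [SMulCommClass R S Q]
    (M : ModuleCat.{0} R) : ModuleCat.{0} S :=
  ModuleCat.of S (M →ₗ[R] Q)

theorem hg_ses (hQ : Module.Injective R Q) {X Y Z : ModuleCat.{0} R} (f : X →ₗ[R] Y)
    (g : Y →ₗ[R] Z) (h : SES f g) :
    SES (X := HG S Q Z) (Y := HG S Q Y) (Z := HG S Q X) (preG S Q g) (preG S Q f) := by
  obtain ⟨hf, hfg, hg⟩ := h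
  refine ⟨?_, ?_, ?_⟩
  · intro u v huv
    refine LinearMap.ext fun x => ?_
    obtain ⟨y, rfl⟩ := hg x
    exact LinearMap.congr_fun huv y
  · intro u
    constructor
    · intro hu
      have hk : LinearMap.ker g ≤ LinearMap.ker u := by
        intro y hy
        obtain ⟨a, rfl⟩ := (hfg y).mp hy
        exact LinearMap.congr_fun hu a
      let e := g.quotKerEquivOfSurjective hg
      refine ⟨((LinearMap.ker g).liftQ u hk) ∘ₗ e.symm.toLinearMap, ?_⟩
      refine LinearMap.ext fun y => ?_
      change ((LinearMap.ker g).liftQ u hk) (e.symm (g y)) = u y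
      have h1 : e.symm (g y) = Submodule.Quotient.mk y := by
        rw [LinearEquiv.symm_apply_eq]
        rfl
      rw [h1]
      rfl
    · rintro ⟨v, rfl⟩
      refine LinearMap.ext fun x => ?_
      change v (g (f x)) = 0
      rw [(hfg (f x)).mpr ⟨x, rfl⟩, map_zero]
  · intro u
    obtain ⟨v, hv⟩ := hQ.out f hf u
    exact ⟨v, LinearMap.ext hv⟩

theorem hg_proj (hemb : ∀ (M : ModuleCat.{0} R), Module.Finite R M →
      ∃ (n : ℕ) (e : M →ₗ[R] (Fin n → Q)), Function.Injective e)
    (hEnd : Module.Projective S (Q →ₗ[R] Q))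
    (J : ModuleCat.{0} R) (hf : Module.Finite R J) (hJ : Module.Injective R J) :
    Module.Projective S (HG S Q J) := by
  obtain ⟨n, e, he⟩ := hemb J hf
  obtain ⟨r, hr⟩ := hJ.out e he LinearMap.id
  have h2 : Module.Projective S (Fin n → (Q →ₗ[R] Q)) := proj_pi _ fun _ => hEnd
  have h3 : Module.Projective S ((Fin n → Q) →ₗ[R] Q) :=
    Module.Projective.of_equiv (LinearMap.lsum R (fun _ : Fin n => Q) S)
  refine Module.Projective.of_split
    (preG S Q (M := ModuleCat.of R (Fin n → Q)) (N := J) r)
    (preG S Q (M := J) (N := ModuleCat.of R (Fin n → Q)) e) ?_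
  refine LinearMap.ext fun u => LinearMap.ext fun x => ?_
  change u (r (e x)) = u x
  rw [hr]
  rfl

theorem hg_bk {N : ℕ} (G : Fin N → ModuleCat.{0} R) (c : Fin N → ℕ) :
    Nonempty (HG S Q (Bk G c) ≃ₗ[S] Bk (fun a => HG S Q (G a)) c) := by
  let e1 : (∀ a, Fin (c a) → (G a →ₗ[R] Q)) ≃ₗ[S] (∀ a, ((Fin (c a) → G a) →ₗ[R] Q)) :=
    LinearEquiv.piCongrRight fun a => LinearMap.lsum R (fun _ : Fin (c a) => (G a : Type)) S
  let e2 : (∀ a, ((Fin (c a) → G a) →ₗ[R] Q)) ≃ₗ[S] ((∀ a, Fin (c a) → G a) →ₗ[R] Q) :=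
    LinearMap.lsum R (fun a => (Fin (c a) → G a)) S
  exact ⟨(e1.trans e2).symm⟩

theorem hg_piFin {n : ℕ} (X : Fin n → ModuleCat.{0} R) :
    Nonempty (HG S Q (ModuleCat.of R (∀ i, X i)) ≃ₗ[S] (∀ i, HG S Q (X i))) :=
  ⟨(LinearMap.lsum R (fun i => (X i : Type)) S).symm⟩

/-- the dual of a finitely generated free module -/
theorem hg_free (n : ℕ) : Nonempty ((Fin n → Q) ≃ₗ[S] ((Fin n → R) →ₗ[R] Q)) := by
  let e0 : (Fin n → Q) ≃ₗ[S] (Fin n → (R →ₗ[R] Q)) :=
    LinearEquiv.piCongrRight fun _ => (LinearMap.ringLmapEquivSelf R S Q).symm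
  exact ⟨e0.trans (LinearMap.lsum R (fun _ : Fin n => R) S)⟩

theorem hg_inj (hQS : Module.Injective S Q) (P : ModuleCat.{0} R) (hf : Module.Finite R P)
    (hP : Module.Projective R P) : Module.Injective S (HG S Q P) := by
  obtain ⟨s, a, ha⟩ := Module.Finite.exists_fin' R P
  obtain ⟨b, hb⟩ := Module.projective_lifting_property a LinearMap.id ha
  obtain ⟨e⟩ := hg_free (R := R) (S := S) (Q := Q) s
  have h1 : Module.Injective S (Fin s → Q) := by
    have : Module.Injective S (ModuleCat.of S Q) := by
      change Module.Injective S Q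
      exact hQS
    exact injective_pow (Q := ModuleCat.of S Q) this s
  refine ⟨fun X Y _ _ _ _ f hfi u => ?_⟩
  obtain ⟨v, hv⟩ := h1.out f hfi (e.symm.toLinearMap ∘ₗ
    preG S Q (M := ModuleCat.of R (Fin s → R)) (N := P) a ∘ₗ u)
  refine ⟨preG S Q (M := P) (N := ModuleCat.of R (Fin s → R)) b ∘ₗ e.toLinearMap ∘ₗ v,
    fun x => ?_⟩
  change (e (v (f x))) ∘ₗ b = u x
  rw [hv]
  change (e (e.symm ((u x) ∘ₗ a))) ∘ₗ b = u x
  rw [LinearEquiv.apply_symm_apply]
  refine LinearMap.ext fun y => ?_
  change u x (a (b y)) = u x y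
  rw [show a (b y) = y from LinearMap.congr_fun hb y]

theorem hg_finite [IsNoetherianRing S] (hQf : Module.Finite S Q) (M : ModuleCat.{0} R)
    (hM : Module.Finite R M) : Module.Finite S (HG S Q M) := by
  obtain ⟨s, a, ha⟩ := Module.Finite.exists_fin' R M
  obtain ⟨e⟩ := hg_free (R := R) (S := S) (Q := Q) s
  have h1 : Module.Finite S ((Fin s → R) →ₗ[R] Q) := Module.Finite.equiv e
  have hinj : Function.Injective (preG S Q (M := ModuleCat.of R (Fin s → R)) (N := M) a) := by
    intro u v huv
    refine LinearMap.ext fun x => ?_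
    obtain ⟨y, rfl⟩ := ha x
    exact LinearMap.congr_fun huv y
  exact Module.Finite.of_injective _ hinj

/-- syzygies become cosyzygies -/
theorem cosyz_of_syz [IsNoetherianRing S] (hQ : Module.Injective R Q)
    (hQS : Module.Injective S Q) (hQf : Module.Finite S Q) {j : ℕ} {M Y : ModuleCat.{0} R}
    (h : Syz R j M Y) : Cosyz S j (HG S Q M) (HG S Q Y) := by
  induction h with
  | zero M => exact Cosyz.zero _
  | @succ n M X P Y hX f g hfin hproj h ih =>
    exact Cosyz.succ (I := HG S Q P) ih (preG S Q g) (preG S Q f) (hg_finite hQf P hfin)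
      (hg_inj hQS P hfin hproj) (hg_ses hQ f g h)

/-- if the regular module R has finite injective dimension, then finitely generated injective
S-modules have finite projective dimension -/
theorem inj_pdG (hQ : Module.Injective R Q) (hQfR : Module.Finite R Q)
    (hemb : ∀ (M : ModuleCat.{0} R), Module.Finite R M →
      ∃ (n : ℕ) (e : M →ₗ[R] (Fin n → Q)), Function.Injective e)
    (hEnd : Module.Projective S (Q →ₗ[R] Q))
    (hembS : ∀ (M : ModuleCat.{0} S), Module.Finite S M →
      ∃ (n : ℕ) (e : M →ₗ[S] (Fin n → Q)), Function.Injective e)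
    (h : ∃ n, HasInjectiveDimensionLE (ModuleCat.of R R) n) :
    ∀ J : ModuleCat.{0} S, Module.Finite S J → Module.Injective S J →
      ∃ n, HasProjectiveDimensionLT J n := by
  obtain ⟨n, hn⟩ := h
  have hfA : Module.Finite R (ModuleCat.of R R) := by
    change Module.Finite R R
    infer_instance
  obtain ⟨Z, r, ι, π, hZ0, hZf, hι, hex, hπ, -⟩ := exists_coseq
    (Q := ModuleCat.of R Q) (by
      change Module.Finite R Q
      exact hQfR) (by
      change Module.Injective R Q
      exact hQ) hemb (ModuleCat.of R R) hfA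
  have hQi : Module.Injective R (ModuleCat.of R Q) := by
    change Module.Injective R Q
    exact hQ
  have hQpow : ∀ m : ℕ, Module.Injective R (Fin m → Q) := fun m =>
    injective_pow (Q := ModuleCat.of R Q) hQi m
  have hdown : ∀ i m, 1 ≤ m → HasInjectiveDimensionLT (Z 0) (m + i) →
      HasInjectiveDimensionLT (Z i) m := by
    intro i
    induction i with
    | zero => intro m _ h; exact h
    | succ i ih =>
      intro m hm h1
      have h2 := ih (m + 1) (by omega) (by rwa [show m + 1 + i = m + (i + 1) by omega])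
      have h3 : CategoryTheory.Injective (ModuleCat.of R (Fin (r i) → Q)) :=
        (Module.injective_iff_injective_object R _).mp (hQpow (r i))
      exact (sc_shortExact (A := Z i) (B := ModuleCat.of R (Fin (r i) → Q))
        (C := Z (i + 1)) (ι i) (π i) (hι i) (hex i) (hπ i)).hasInjectiveDimensionLT_X₃ m
        (hasInjectiveDimensionLT_of_ge _ 1 m hm) h2
  have hZn : Module.Injective R (Z n) := by
    have h1 : HasInjectiveDimensionLT (Z n) 1 := by
      apply hdown n 1 le_rfl
      rw [hZ0, Nat.add_comm]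
      exact hn
    exact (Module.injective_iff_injective_object R _).mpr
      (injective_iff_hasInjectiveDimensionLT_one.mpr h1)
  have hup : ∀ t i, i + t = n → HasProjectiveDimensionLT (HG S Q (Z i)) (t + 1) := by
    intro t
    induction t with
    | zero =>
      intro i hi
      have hi' : i = n := by omega
      subst hi'
      have h1 : Projective (HG S Q (Z i)) :=
        (IsProjective.iff_projective _).mp (hg_proj hemb hEnd (Z i) (hZf i) hZn)
      exact projective_iff_hasProjectiveDimensionLT_one.mp h1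
    | succ t ih =>
      intro i hi
      have h1 := ih (i + 1) (by omega)
      have hS := hg_ses (S := S) hQ (X := Z i) (Y := ModuleCat.of R (Fin (r i) → Q))
        (Z := Z (i + 1)) (ι i) (π i) ⟨hι i, hex i, hπ i⟩
      have h2 : Projective (HG S Q (ModuleCat.of R (Fin (r i) → Q))) := by
        refine (IsProjective.iff_projective _).mp (hg_proj hemb hEnd _ ?_ (hQpow (r i)))
        change Module.Finite R (Fin (r i) → Q)
        infer_instance
      exact (sc_shortExact _ _ hS.1 hS.2.1 hS.2.2).hasProjectiveDimensionLT_X₃ (t + 1) h1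
        (hasProjectiveDimensionLT_of_ge _ 1 _ (by omega))
  have hQpd : HasProjectiveDimensionLT (ModuleCat.of S Q) (n + 1) := by
    have h1 := hup n 0 (by omega)
    rw [hZ0] at h1
    let e : (R →ₗ[R] Q) ≃ₗ[S] Q := LinearMap.ringLmapEquivSelf R S Q
    exact pd_retract (X := ModuleCat.of S Q) (Y := HG S Q (ModuleCat.of R R))
      e.symm.toLinearMap e.toLinearMap (LinearMap.ext fun x => e.apply_symm_apply x) _ h1
  intro J hJf hJ
  obtain ⟨m, e, he⟩ := hembS J hJf
  obtain ⟨s, hs⟩ := hJ.out e he LinearMap.id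
  exact ⟨n + 1, pd_retract (Y := ModuleCat.of S (Fin m → ModuleCat.of S Q)) e s
    (LinearMap.ext hs) _ (pd_pow (X := ModuleCat.of S Q) (n + 1) hQpd m)⟩

end

section
variable {k A : Type} [Field k] [Ring A] [Algebra k A]

instance : SMulCommClass Aᵐᵒᵖ A (QD k A) := SMulCommClass.symm A Aᵐᵒᵖ (QD k A)

variable [Module.Finite k A]

theorem end_proj : Module.Projective Aᵐᵒᵖ (QD k A →ₗ[A] QD k A) := by
  have hfree : Module.Projective Aᵐᵒᵖ A := by
    have := freeB (B := A)
    infer_instance
  obtain ⟨e1⟩ := qd_end (k := k) (A := A)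
  exact Module.Projective.of_equiv e1

/-- the double centralizer property on the other side -/
theorem qd_end' : Nonempty (A ≃ₗ[A] (QD k A →ₗ[Aᵐᵒᵖ] QD k A)) := by
  let F : A →ₗ[A] (QD k A →ₗ[Aᵐᵒᵖ] QD k A) :=
    { toFun := fun a =>
        { toFun := fun f => a • f
          map_add' := fun f g => smul_add _ _ _
          map_smul' := fun r f => smul_comm a r f }
      map_add' := fun a b => LinearMap.ext fun f => by
        change (a + b) • f = a • f + b • f
        rw [add_smul]
      map_smul' := fun r a => LinearMap.ext fun f => by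
        change (r * a) • f = r • a • f
        rw [mul_smul] }
  have hF : ∀ a f x, ev (F a f) x = ev f (x * a) := fun a f x => rfl
  refine ⟨LinearEquiv.ofBijective F ⟨?_, ?_⟩⟩
  · rw [← LinearMap.ker_eq_bot, eq_bot_iff]
    intro a ha
    rw [Submodule.mem_bot]
    have h1 : ∀ f : A →ₗ[k] k, f a = 0 := by
      intro f
      have h2 : F a (mkQ f) = 0 := LinearMap.congr_fun ha (mkQ f)
      have h3 := hF a (mkQ f) 1
      rw [h2, ev_zero, one_mul] at h3
      exact h3.symm
    exact (Module.forall_dual_apply_eq_zero_iff k a).mp h1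
  · intro T
    let φ : (A →ₗ[k] k) →ₗ[k] k :=
      { toFun := fun f => ev (T (mkQ f)) 1
        map_add' := fun f g => by
          change ev (T (mkQ f + mkQ g)) 1 = _
          rw [map_add, ev_add]
        map_smul' := fun c f => by
          have h1 : mkQ (c • f) = (MulOpposite.op (algebraMap k A c) • mkQ f : QD k A) :=
            qd_ext fun x => by
              rw [ev_op, ev_mkQ, ev_mkQ, MulOpposite.unop_op, ← Algebra.smul_def, map_smul]
              rfl
          change ev (T (mkQ (c • f))) 1 = c * ev (T (mkQ f)) 1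
          rw [h1, map_smul, ev_op, MulOpposite.unop_op, ← Algebra.smul_def, ev_smul'] }
    obtain ⟨a, ha⟩ := (Module.bijective_dual_eval k A).2 φ
    have ha' : ∀ f : A →ₗ[k] k, f a = ev (T (mkQ f)) 1 := fun f => LinearMap.congr_fun ha f
    refine ⟨a, LinearMap.ext fun f => qd_ext fun x => ?_⟩
    rw [hF]
    have h2 := ha' (show A →ₗ[k] k from (MulOpposite.op x • f : QD k A))
    have h3 : mkQ (show A →ₗ[k] k from (MulOpposite.op x • f : QD k A)) =
      MulOpposite.op x • f := rfl
    rw [h3, map_smul, ev_op, MulOpposite.unop_op, mul_one] at h2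
    exact h2

theorem end_proj' : Module.Projective A (QD k A →ₗ[Aᵐᵒᵖ] QD k A) := by
  obtain ⟨e1⟩ := qd_end' (k := k) (A := A)
  exact Module.Projective.of_equiv e1

end

end Pool.Agent.Helper426GSC
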