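import Pool.Agent.Helper426_GSC.Bimod
import Pool.Agent.Helper426_TauT.IT3
import Pool.Agent.Helper426_TauT.Center
import Pool.Agent.Helper426_Tach.Main2

set_option autoImplicit false
open CategoryTheory Pool.Agent.Helper426Tach Pool.Agent.Helper426TauT

namespace Pool.Agent.Helper426GSC

/-! general lemmas -/
section
variable {S : Type} [Ring S]

theorem pd_pow {X : ModuleCat.{0} S} (m : ℕ) (h : HasProjectiveDimensionLT X m) (n : ℕ) :
    HasProjectiveDimensionLT (ModuleCat.of S (Fin n → X)) m := by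
  induction n with
  | zero =>
    refine pd_zero (X := ModuleCat.of S (Fin 0 → X)) ?_ m
    change Subsingleton (Fin 0 → X)
    infer_instance
  | succ n ih =>
    let e : (Fin (n + 1) → X) ≃ₗ[S] X × (Fin n → X) := (Fin.consLinearEquiv S (fun _ => X)).symm
    exact pd_retract (Y := ModuleCat.of S (X × ModuleCat.of S (Fin n → X))) e.toLinearMap
      e.symm.toLinearMap (LinearMap.ext fun x => e.symm_apply_apply x) m (pd_prod m h ih)

/-- projective dimensions along cosyzygies -/
theorem cosyz_pd (hinj : ∀ J : ModuleCat.{0} S, Module.Finite S J → Module.Injective S J →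
      ∃ n, HasProjectiveDimensionLT J n) {j : ℕ} {M Y : ModuleCat.{0} S} (h : Cosyz S j M Y)
    (hM : ∃ n, HasProjectiveDimensionLT M n) : ∃ n, HasProjectiveDimensionLT Y n := by
  induction h with
  | zero M => exact hM
  | @succ n M X I Y hX f g hfin hI h ih =>
    obtain ⟨a, ha⟩ := ih hM
    obtain ⟨b, hb⟩ := hinj I hfin hI
    obtain ⟨hf, hfg, hg⟩ := h
    refine ⟨max a b + 1, ?_⟩
    exact (sc_shortExact f g hf hfg hg).hasProjectiveDimensionLT_X₃ (max a b)
      (hasProjectiveDimensionLT_of_ge X a _ (le_max_left _ _))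
      (hasProjectiveDimensionLT_of_ge I b _ (le_trans (le_max_right _ _) (Nat.le_succ _)))

variable [HasExt.{0} (ModuleCat.{0} S)]

theorem cosyz_ext {j : ℕ} {M X : ModuleCat.{0} S} (h : Cosyz S j M X) (Y : ModuleCat.{0} S) :
    ∀ m, Subsingleton (Abelian.Ext.{0} Y M (m + 1 + j)) →
      Subsingleton (Abelian.Ext.{0} Y X (m + 1)) := by
  induction h with
  | zero M => intro m h; exact h
  | @succ n M X I Z hX f g hfin hI h ih =>
    intro m h1
    obtain ⟨hf, hfg, hg⟩ := h
    refine ez_cov3 f g hf hfg hg (ez_injective hI m) ?_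
    exact ih (m + 1) (by rwa [show m + 1 + 1 + n = m + 1 + (n + 1) by omega])

omit [HasExt.{0} (ModuleCat.{0} S)] in
theorem cosyz_id {j : ℕ} {M X : ModuleCat.{0} S} (h : Cosyz S j M X)  :
    ∀ m, HasInjectiveDimensionLT X m → HasInjectiveDimensionLT M (m + j) := by
  induction h with
  | zero M => intro m h; exact h
  | @succ n M X I Z hX f g hfin hI h ih =>
    intro m h1
    obtain ⟨hf, hfg, hg⟩ := h
    have hI' : CategoryTheory.Injective I := (Module.injective_iff_injective_object S I).mp hI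
    have h2 : HasInjectiveDimensionLT X (m + 1) :=
      (sc_shortExact f g hf hfg hg).hasInjectiveDimensionLT_X₁ m h1
        (hasInjectiveDimensionLT_of_ge I 1 (m + 1) (by omega))
    have h3 := ih (m + 1) h2
    rwa [show m + 1 + n = m + (n + 1) by omega] at h3

theorem cosyz_inv {n : ℕ} {M Y : ModuleCat.{0} S} (h : Cosyz S (n + 1) M Y) :
    ∃ (X I : ModuleCat.{0} S) (f : X →ₗ[S] I) (g : I →ₗ[S] Y), Cosyz S n M X ∧
      Module.Finite S I ∧ Module.Injective S I ∧ SES f g := by
  cases h with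
  | succ hX f g hfin hI h => exact ⟨_, _, f, g, hX, hfin, hI, h⟩

/-- a cosyzygy of small projective dimension bounds the injective dimension -/
theorem id_of_cosyz {j : ℕ} {M Y : ModuleCat.{0} S} (h : Cosyz S (j + 1) M Y)
    (hY : HasProjectiveDimensionLT Y (j + 1)) : HasInjectiveDimensionLT M (1 + j) := by
  obtain ⟨X, I, f, g, hX, hfin, hI, hf, hfg, hg⟩ := cosyz_inv h
  have h1 : Subsingleton (Abelian.Ext.{0} Y X (0 + 1)) :=
    cosyz_ext hX Y 0 (HasProjectiveDimensionLT.subsingleton Y (j + 1) _ (by omega) M)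
  obtain ⟨s, hs⟩ := lift_of_ez f g hf hfg hg h1 LinearMap.id
  have h2 : Module.Injective S X := retract_inj f g hf hfg s hs hI
  have h3 : CategoryTheory.Injective X := (Module.injective_iff_injective_object S X).mp h2
  exact cosyz_id hX 1 (injective_iff_hasInjectiveDimensionLT_one.mp h3)

end

section
variable {k A : Type} [Field k] [Ring A] [Algebra k A]

/-- precomposition -/
def preQ {M N : ModuleCat.{0} A} (f : M →ₗ[A] N) :
    (N →ₗ[A] QD k A) →ₗ[Aᵐᵒᵖ] (M →ₗ[A] QD k A) where
  toFun u := u ∘ₗ f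
  map_add' _ _ := rfl
  map_smul' _ _ := rfl

/-- the dual of a left module, in the form Hom_A(M, D(A)) -/
abbrev HQ (k : Type) {A : Type} [Field k] [Ring A] [Algebra k A] (M : ModuleCat.{0} A) :
    ModuleCat.{0} Aᵐᵒᵖ :=
  ModuleCat.of Aᵐᵒᵖ (M →ₗ[A] QD k A)

theorem hq_ses {X Y Z : ModuleCat.{0} A} (f : X →ₗ[A] Y) (g : Y →ₗ[A] Z) (h : SES f g) :
    SES (X := HQ k Z) (Y := HQ k Y) (Z := HQ k X) (preQ g) (preQ f) := by
  obtain ⟨hf, hfg, hg⟩ := h
  refine ⟨?_, ?_, ?_⟩
  · intro u v huv
    refine LinearMap.ext fun x => ?_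
    obtain ⟨y, rfl⟩ := hg x
    exact LinearMap.congr_fun huv y
  · intro u
    constructor
    · intro hu
      have hk : LinearMap.ker g ≤ LinearMap.ker u := by
        intro y hy
        obtain ⟨a, rfl⟩ := (hfg y).mp hy
        exact LinearMap.congr_fun hu a
      let e := g.quotKerEquivOfSurjective hg
      refine ⟨((LinearMap.ker g).liftQ u hk) ∘ₗ e.symm.toLinearMap, ?_⟩
      refine LinearMap.ext fun y => ?_
      change ((LinearMap.ker g).liftQ u hk) (e.symm (g y)) = u y
      have h1 : e.symm (g y) = Submodule.Quotient.mk y := by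
        rw [LinearEquiv.symm_apply_eq]
        rfl
      rw [h1]
      rfl
    · rintro ⟨v, rfl⟩
      refine LinearMap.ext fun x => ?_
      change v (g (f x)) = 0
      rw [(hfg (f x)).mpr ⟨x, rfl⟩, map_zero]
  · intro u
    obtain ⟨v, hv⟩ := (qd_injective (k := k) (A := A)).out f hf u
    exact ⟨v, LinearMap.ext hv⟩

variable [Module.Finite k A]

theorem hq_proj (J : ModuleCat.{0} A) (hf : Module.Finite A J) (hJ : Module.Injective A J) :
    Module.Projective Aᵐᵒᵖ (HQ k J) := by
  obtain ⟨n, e, he⟩ := qd_embedding (k := k) (A := A) J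
  obtain ⟨r, hr⟩ := hJ.out e he LinearMap.id
  have hfree : Module.Projective Aᵐᵒᵖ A := by
    have := freeB (B := A)
    infer_instance
  have h1 : Module.Projective Aᵐᵒᵖ (QD k A →ₗ[A] QD k A) := by
    obtain ⟨e1⟩ := qd_end (k := k) (A := A)
    exact Module.Projective.of_equiv e1
  have h2 : Module.Projective Aᵐᵒᵖ (Fin n → (QD k A →ₗ[A] QD k A)) := proj_pi _ fun _ => h1
  have h3 : Module.Projective Aᵐᵒᵖ ((Fin n → QD k A) →ₗ[A] QD k A) :=
    Module.Projective.of_equiv (LinearMap.lsum A (fun _ : Fin n => QD k A) Aᵐᵒᵖ)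
  refine Module.Projective.of_split
    (preQ (k := k) (M := ModuleCat.of A (Fin n → QD k A)) (N := J) r)
    (preQ (k := k) (M := J) (N := ModuleCat.of A (Fin n → QD k A)) e) ?_
  refine LinearMap.ext fun u => LinearMap.ext fun x => ?_
  change u (r (e x)) = u x
  rw [hr]
  rfl

end

/-- if the left regular module has finite injective dimension, then finitely generated injective
right modules have finite projective dimension -/
theorem inj_pd (k : Type) {A : Type} [Field k] [Ring A] [Algebra k A] [Module.Finite k A]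
    (h : ∃ n, HasInjectiveDimensionLE (ModuleCat.of A A) n) :
    ∀ J : ModuleCat.{0} Aᵐᵒᵖ, Module.Finite Aᵐᵒᵖ J → Module.Injective Aᵐᵒᵖ J →
      ∃ n, HasProjectiveDimensionLT J n := by
  obtain ⟨n, hn⟩ := h
  have hfA : Module.Finite A (ModuleCat.of A A) := by
    change Module.Finite A A
    infer_instance
  obtain ⟨Z, r, ι, π, hZ0, hZf, hι, hex, hπ, -⟩ := exists_coseq
    (Q := ModuleCat.of A (QD k A)) (by
      change Module.Finite A (QD k A)
      exact qd_finite) (by
      change Module.Injective A (QD k A)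
      exact qd_injective) (fun M hM => qd_embedding M) (ModuleCat.of A A) hfA
  have hQi : Module.Injective A (ModuleCat.of A (QD k A)) := by
    change Module.Injective A (QD k A)
    exact qd_injective
  have hQpow : ∀ m : ℕ, Module.Injective A (Fin m → QD k A) := fun m =>
    injective_pow (Q := ModuleCat.of A (QD k A)) hQi m
  -- the n-th cosyzygy is injective
  have hdown : ∀ i m, 1 ≤ m → HasInjectiveDimensionLT (Z 0) (m + i) →
      HasInjectiveDimensionLT (Z i) m := by
    intro i
    induction i with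
    | zero => intro m _ h; exact h
    | succ i ih =>
      intro m hm h1
      have h2 := ih (m + 1) (by omega) (by rwa [show m + 1 + i = m + (i + 1) by omega])
      have h3 : CategoryTheory.Injective (ModuleCat.of A (Fin (r i) → QD k A)) :=
        (Module.injective_iff_injective_object A _).mp (hQpow (r i))
      exact (sc_shortExact (A := Z i) (B := ModuleCat.of A (Fin (r i) → QD k A))
        (C := Z (i + 1)) (ι i) (π i) (hι i) (hex i) (hπ i)).hasInjectiveDimensionLT_X₃ m
        (hasInjectiveDimensionLT_of_ge _ 1 m hm) h2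
  have hZn : Module.Injective A (Z n) := by
    have h1 : HasInjectiveDimensionLT (Z n) 1 := by
      apply hdown n 1 le_rfl
      rw [hZ0, Nat.add_comm]
      exact hn
    exact (Module.injective_iff_injective_object A _).mpr
      (injective_iff_hasInjectiveDimensionLT_one.mpr h1)
  -- projective dimensions of the duals
  have hup : ∀ t i, i + t = n → HasProjectiveDimensionLT (HQ k (Z i)) (t + 1) := by
    intro t
    induction t with
    | zero =>
      intro i hi
      have hi' : i = n := by omega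
      subst hi'
      have h1 : Projective (HQ k (Z i)) :=
        (IsProjective.iff_projective _).mp (hq_proj (Z i) (hZf i) hZn)
      exact projective_iff_hasProjectiveDimensionLT_one.mp h1
    | succ t ih =>
      intro i hi
      have h1 := ih (i + 1) (by omega)
      have hS := hq_ses (k := k) (X := Z i) (Y := ModuleCat.of A (Fin (r i) → QD k A))
        (Z := Z (i + 1)) (ι i) (π i) ⟨hι i, hex i, hπ i⟩
      have h2 : Projective (HQ k (ModuleCat.of A (Fin (r i) → QD k A))) := by
        refine (IsProjective.iff_projective _).mp (hq_proj _ ?_ (hQpow (r i)))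
        have := qd_finite (k := k) (A := A)
        change Module.Finite A (Fin (r i) → QD k A)
        infer_instance
      exact (sc_shortExact _ _ hS.1 hS.2.1 hS.2.2).hasProjectiveDimensionLT_X₃ (t + 1) h1
        (hasProjectiveDimensionLT_of_ge _ 1 _ (by omega))
  have hQpd : HasProjectiveDimensionLT (ModuleCat.of Aᵐᵒᵖ (QD k A)) (n + 1) := by
    have h1 := hup n 0 (by omega)
    rw [hZ0] at h1
    let e : (A →ₗ[A] QD k A) ≃ₗ[Aᵐᵒᵖ] QD k A := LinearMap.ringLmapEquivSelf A Aᵐᵒᵖ (QD k A)
    exact pd_retract (X := ModuleCat.of Aᵐᵒᵖ (QD k A)) (Y := HQ k (ModuleCat.of A A))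
      e.symm.toLinearMap e.toLinearMap (LinearMap.ext fun x => e.apply_symm_apply x) _ h1
  intro J hJf hJ
  obtain ⟨m, e, he⟩ := qd_embedding_op (k := k) (A := A) J
  obtain ⟨s, hs⟩ := hJ.out e he LinearMap.id
  exact ⟨n + 1, pd_retract (Y := ModuleCat.of Aᵐᵒᵖ (Fin m → ModuleCat.of Aᵐᵒᵖ (QD k A))) e s
    (LinearMap.ext hs) _ (pd_pow (X := ModuleCat.of Aᵐᵒᵖ (QD k A)) (n + 1) hQpd m)⟩

/-- CoTwoStep G Y: there is an exact sequence 0 → Y → V0 → V1 → 0 in which V0 and V1 are finite
direct sums of copies of the modules G a. -/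
def CoTwoStep {R : Type} [Ring R] {N : ℕ} (G : Fin N → ModuleCat.{0} R) (Y : ModuleCat.{0} R) :
    Prop :=
  ∃ (c0 c1 : Fin N → ℕ) (f : Y →ₗ[R] Bk G c0) (g : Bk G c0 →ₗ[R] Bk G c1), SES f g

/-- CoIgusaTodorovType M: there are finitely many finitely generated modules G a such that for
infinitely many j some j-th cosyzygy Y of M satisfies CoTwoStep G Y. -/
def CoIgusaTodorovType {R : Type} [Ring R] (M : ModuleCat.{0} R) : Prop :=
  ∃ (N : ℕ) (G : Fin N → ModuleCat.{0} R), (∀ a, Module.Finite R (G a)) ∧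
    ∀ m : ℕ, ∃ j : ℕ, m ≤ j ∧ ∃ Y : ModuleCat.{0} R, Cosyz R j M Y ∧ CoTwoStep G Y

theorem gsc_main (k : Type) [Field k] (A : Type) [Ring A] [Algebra k A] [Module.Finite k A]
    (hI : CoIgusaTodorovType (ModuleCat.of Aᵐᵒᵖ A))
    (h : ∃ n, HasInjectiveDimensionLE (ModuleCat.of A A) n) :
    ∃ n, HasInjectiveDimensionLE (ModuleCat.of Aᵐᵒᵖ A) n := by
  have h1 : Module.Finite k Aᵐᵒᵖ := Module.Finite.equiv (MulOpposite.opLinearEquiv k)
  obtain ⟨hfin, hart⟩ := center_artin k Aᵐᵒᵖ
  obtain ⟨N, G, hGf, hG⟩ := hI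
  obtain ⟨E, hE⟩ := it_bound G hGf
  obtain ⟨j, hj, Y, hY, c0, c1, f, g, hfg⟩ := hG (E + 1)
  obtain ⟨j, rfl⟩ : ∃ j', j = j' + 1 := ⟨j - 1, by omega⟩
  have hA : ∃ n, HasProjectiveDimensionLT (ModuleCat.of Aᵐᵒᵖ A) n := by
    have := freeB (B := A)
    have h2 : Module.Projective Aᵐᵒᵖ A := inferInstance
    have h3 : Projective (ModuleCat.of Aᵐᵒᵖ A) := (IsProjective.iff_projective _).mp h2
    exact ⟨1, projective_iff_hasProjectiveDimensionLT_one.mp h3⟩
  have hYpd := cosyz_pd (inj_pd k h) hY hA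
  have h2 := hE Y _ _ f g c0 c1 hfg ⟨LinearEquiv.refl _ _⟩ ⟨LinearEquiv.refl _ _⟩ hYpd
  have h3 : HasProjectiveDimensionLT Y (j + 1) := hasProjectiveDimensionLT_of_ge Y E _ (by omega)
  have h4 := id_of_cosyz hY h3
  exact ⟨j, by rwa [Nat.add_comm] at h4⟩

end Pool.Agent.Helper426GSC
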