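import Pool.Agent.Helper426_Tach.RigidFin
import Pool.Agent.Helper426_TauT.SyzFin

set_option autoImplicit false
open CategoryTheory Pool.Agent.Helper426Tach Pool.Agent.Helper426TauT
open scoped TensorProduct

namespace Pool.Agent.Helper426GSC

section
variable (k : Type) [Field k] (R : Type) [Ring R] [Algebra k R]
  (V : Type) [AddCommGroup V] [Module k V]

/-- the space of the canonical syzygy -/
abbrev SV : Type := (R ⊗[k] V) ⧸ LinearMap.range (TensorProduct.mk k R V 1)

end

section
variable {k : Type} [Field k] {R : Type} [Ring R] [Algebra k R]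
  {V : Type} [AddCommGroup V] [Module k V]

/-- the multiplication map -/
def mul (u : R →ₗ[k] Module.End k V) : R ⊗[k] V →ₗ[k] V := TensorProduct.lift u

theorem mul_tmul (u : R →ₗ[k] Module.End k V) (a : R) (v : V) : mul u (a ⊗ₜ v) = u a v := by
  unfold mul
  rw [TensorProduct.lift.tmul]

theorem mul_smul' (ρ : R →ₐ[k] Module.End k V) (s : R) (x : R ⊗[k] V) :
    mul ρ.toLinearMap (s • x) = ρ s (mul ρ.toLinearMap x) := by
  induction x using TensorProduct.induction_on with
  | zero => rw [smul_zero, map_zero, map_zero]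
  | tmul a v =>
    rw [TensorProduct.smul_tmul', mul_tmul, mul_tmul]
    change ρ (s * a) v = ρ s (ρ a v)
    rw [map_mul]
    rfl
  | add x y hx hy => rw [smul_add, map_add, map_add, hx, hy, map_add]

/-- the action before passing to the quotient -/
def act (u : R →ₗ[k] Module.End k V) (s : R) : R ⊗[k] V →ₗ[k] R ⊗[k] V where
  toFun x := s • x - s ⊗ₜ mul u x
  map_add' x y := by
    rw [smul_add, map_add, TensorProduct.tmul_add]
    abel
  map_smul' c x := by
    rw [map_smul, TensorProduct.tmul_smul, smul_comm s c x, RingHom.id_apply, smul_sub]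

theorem act_apply (u : R →ₗ[k] Module.End k V) (s : R) (x : R ⊗[k] V) :
    act u s x = s • x - s ⊗ₜ mul u x := rfl

theorem mul_act (ρ : R →ₐ[k] Module.End k V) (s : R) (x : R ⊗[k] V) :
    mul ρ.toLinearMap (act ρ.toLinearMap s x) = 0 := by
  rw [act_apply, map_sub, mul_smul', mul_tmul]
  exact sub_self _

/-- the action on the canonical syzygy -/
def actQ (ρ : R →ₐ[k] Module.End k V) (s : R) : SV k R V →ₗ[k] SV k R V :=
  (LinearMap.range (TensorProduct.mk k R V 1)).liftQ
    ((LinearMap.range (TensorProduct.mk k R V 1)).mkQ ∘ₗ act ρ.toLinearMap s) (by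
      rintro _ ⟨v, rfl⟩
      rw [LinearMap.mem_ker]
      change (LinearMap.range (TensorProduct.mk k R V 1)).mkQ
        (act ρ.toLinearMap s ((1 : R) ⊗ₜ[k] v)) = 0
      have h1 : act ρ.toLinearMap s ((1 : R) ⊗ₜ[k] v) = 0 := by
        rw [act_apply, TensorProduct.smul_tmul', mul_tmul]
        change (s • (1 : R)) ⊗ₜ[k] v - s ⊗ₜ[k] (ρ 1 v) = 0
        rw [map_one, smul_eq_mul, mul_one]
        exact sub_self _
      rw [h1, map_zero])

theorem actQ_mk (ρ : R →ₐ[k] Module.End k V) (s : R) (x : R ⊗[k] V) :
    actQ ρ s (Submodule.Quotient.mk x) = Submodule.Quotient.mk (act ρ.toLinearMap s x) := rfl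

/-- the syzygy as a module structure -/
noncomputable def syzRep (ρ : R →ₐ[k] Module.End k V) : R →ₐ[k] Module.End k (SV k R V) :=
  AlgHom.ofLinearMap
    { toFun := fun s => actQ ρ s
      map_add' := fun s s' => by
        refine LinearMap.ext fun y => ?_
        obtain ⟨x, rfl⟩ := Submodule.Quotient.mk_surjective _ y
        change actQ ρ (s + s') (Submodule.Quotient.mk x) =
          actQ ρ s (Submodule.Quotient.mk x) + actQ ρ s' (Submodule.Quotient.mk x)
        rw [actQ_mk, actQ_mk, actQ_mk, ← Submodule.Quotient.mk_add]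
        congr 1
        rw [act_apply, act_apply, act_apply, add_smul, TensorProduct.add_tmul]
        abel
      map_smul' := fun c s => by
        refine LinearMap.ext fun y => ?_
        obtain ⟨x, rfl⟩ := Submodule.Quotient.mk_surjective _ y
        change actQ ρ (c • s) (Submodule.Quotient.mk x) = c • actQ ρ s (Submodule.Quotient.mk x)
        rw [actQ_mk, actQ_mk, ← Submodule.Quotient.mk_smul]
        congr 1
        rw [act_apply, act_apply, smul_assoc, ← TensorProduct.smul_tmul', smul_sub] }
    (by
      refine LinearMap.ext fun y => ?_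
      obtain ⟨x, rfl⟩ := Submodule.Quotient.mk_surjective _ y
      change actQ ρ 1 (Submodule.Quotient.mk x) = Submodule.Quotient.mk x
      rw [actQ_mk, Submodule.Quotient.eq, act_apply, one_smul]
      refine ⟨-mul ρ.toLinearMap x, ?_⟩
      rw [map_neg]
      change -((1 : R) ⊗ₜ[k] mul ρ.toLinearMap x) = _
      abel)
    (fun s s' => by
      refine LinearMap.ext fun y => ?_
      obtain ⟨x, rfl⟩ := Submodule.Quotient.mk_surjective _ y
      change actQ ρ (s * s') (Submodule.Quotient.mk x) =
        actQ ρ s (actQ ρ s' (Submodule.Quotient.mk x))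
      rw [actQ_mk, actQ_mk, actQ_mk]
      congr 1
      rw [act_apply ρ.toLinearMap s, mul_act, TensorProduct.tmul_zero, sub_zero, act_apply,
        act_apply, smul_sub, mul_smul, TensorProduct.smul_tmul', smul_eq_mul])

theorem syzRep_mk (ρ : R →ₐ[k] Module.End k V) (s : R) (x : R ⊗[k] V) :
    syzRep ρ s (Submodule.Quotient.mk x : SV k R V) =
      Submodule.Quotient.mk (act ρ.toLinearMap s x) := rfl

/-- the cover -/
def cover (ρ : R →ₐ[k] Module.End k V) : (R ⊗[k] V) →ₗ[R] Tw ρ where
  toFun x := mul ρ.toLinearMap x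
  map_add' x y := map_add (mul ρ.toLinearMap) x y
  map_smul' s x := mul_smul' ρ s x

/-- the inclusion of the syzygy -/
noncomputable def incl (ρ : R →ₐ[k] Module.End k V) : Tw (syzRep ρ) →ₗ[R] (R ⊗[k] V) where
  toFun y := (LinearMap.range (TensorProduct.mk k R V 1)).liftQ
    (LinearMap.id - TensorProduct.mk k R V 1 ∘ₗ mul ρ.toLinearMap) (by
      rintro _ ⟨v, rfl⟩
      rw [LinearMap.mem_ker]
      change (1 : R) ⊗ₜ[k] v - (1 : R) ⊗ₜ[k] (mul ρ.toLinearMap ((1 : R) ⊗ₜ[k] v)) = 0
      rw [mul_tmul]
      change (1 : R) ⊗ₜ[k] v - (1 : R) ⊗ₜ[k] (ρ 1 v) = 0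
      rw [map_one]
      exact sub_self _) y
  map_add' x y := map_add _ x y
  map_smul' s y := by
    obtain ⟨x, rfl⟩ := Submodule.Quotient.mk_surjective (LinearMap.range (TensorProduct.mk k R V 1))
      (show SV k R V from y)
    change act ρ.toLinearMap s x - (1 : R) ⊗ₜ[k] (mul ρ.toLinearMap (act ρ.toLinearMap s x)) =
      s • (x - (1 : R) ⊗ₜ[k] mul ρ.toLinearMap x)
    rw [mul_act, TensorProduct.tmul_zero, sub_zero, act_apply, smul_sub,
      TensorProduct.smul_tmul', smul_eq_mul, mul_one]

theorem incl_mk (ρ : R →ₐ[k] Module.End k V) (x : R ⊗[k] V) :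
    incl ρ (show Tw (syzRep ρ) from (Submodule.Quotient.mk x : SV k R V)) =
      x - (1 : R) ⊗ₜ[k] mul ρ.toLinearMap x := rfl

theorem syz_ses (ρ : R →ₐ[k] Module.End k V) :
    SES (X := ModuleCat.of R (Tw (syzRep ρ))) (Y := ModuleCat.of R (R ⊗[k] V))
      (Z := ModuleCat.of R (Tw ρ)) (incl ρ) (cover ρ) := by
  refine ⟨?_, ?_, ?_⟩
  · rw [← LinearMap.ker_eq_bot, eq_bot_iff]
    intro y hy
    obtain ⟨x, hx⟩ := Submodule.Quotient.mk_surjective
      (LinearMap.range (TensorProduct.mk k R V 1)) (show SV k R V from y)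
    have h1 : x - (1 : R) ⊗ₜ[k] mul ρ.toLinearMap x = 0 := by
      rw [← incl_mk, hx]
      exact hy
    have h2 : (Submodule.Quotient.mk x : SV k R V) = 0 := by
      rw [Submodule.Quotient.mk_eq_zero]
      exact ⟨mul ρ.toLinearMap x, (sub_eq_zero.mp h1).symm⟩
    rw [Submodule.mem_bot]
    exact hx.symm.trans h2
  · intro x
    constructor
    · intro hx
      have h1 : mul ρ.toLinearMap x = 0 := hx
      refine ⟨(show Tw (syzRep ρ) from (Submodule.Quotient.mk x : SV k R V)), ?_⟩
      rw [incl_mk, h1, TensorProduct.tmul_zero, sub_zero]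
    · rintro ⟨y, rfl⟩
      obtain ⟨x, hx⟩ := Submodule.Quotient.mk_surjective
        (LinearMap.range (TensorProduct.mk k R V 1)) (show SV k R V from y)
      have h1 : incl ρ y = x - (1 : R) ⊗ₜ[k] mul ρ.toLinearMap x := by
        rw [← incl_mk, hx]
      rw [h1]
      change mul ρ.toLinearMap (x - (1 : R) ⊗ₜ[k] mul ρ.toLinearMap x) = 0
      rw [map_sub, mul_tmul]
      change mul ρ.toLinearMap x - ρ 1 (mul ρ.toLinearMap x) = 0
      rw [map_one]
      exact sub_self _
  · intro v
    refine ⟨(1 : R) ⊗ₜ[k] (show V from v), ?_⟩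
    change mul ρ.toLinearMap ((1 : R) ⊗ₜ[k] (show V from v)) = v
    rw [mul_tmul]
    change ρ 1 (show V from v) = v
    rw [map_one]
    rfl

end

section
variable {k : Type} [Field k] {R : Type} [Ring R] [Algebra k R] [Module.Finite k R]
  {V : Type} [AddCommGroup V] [Module k V] [Module.Finite k V]

/-- polynomial functions pull back to polynomial functions -/
theorem syzRep_poly (F : PolyF k R (SV k R V)) :
    (fun t : R →ₐ[k] Module.End k V =>
      (F : (R →ₐ[k] Module.End k (SV k R V)) → k) (syzRep t)) ∈ PolyF k R V := by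
  obtain ⟨σ, hσ⟩ := (LinearMap.range (TensorProduct.mk k R V 1)).mkQ.exists_rightInverse_of_surjective
    (LinearMap.range_eq_top.mpr (Submodule.mkQ_surjective _))
  let q := (LinearMap.range (TensorProduct.mk k R V 1)).mkQ
  let L : (R →ₗ[k] Module.End k V) →ₗ[k] (R →ₗ[k] Module.End k (SV k R V)) :=
    { toFun := fun u =>
        { toFun := fun s =>
            { toFun := fun y => q (s ⊗ₜ mul u (σ y))
              map_add' := fun x y => by
                rw [map_add, map_add, TensorProduct.tmul_add, map_add]
              map_smul' := fun c x => by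
                rw [map_smul, map_smul, TensorProduct.tmul_smul, map_smul, RingHom.id_apply] }
          map_add' := fun s s' => by
            refine LinearMap.ext fun y => ?_
            change q ((s + s') ⊗ₜ mul u (σ y)) = q (s ⊗ₜ mul u (σ y)) + q (s' ⊗ₜ mul u (σ y))
            rw [TensorProduct.add_tmul, map_add]
          map_smul' := fun c s => by
            refine LinearMap.ext fun y => ?_
            change q ((c • s) ⊗ₜ mul u (σ y)) = c • q (s ⊗ₜ mul u (σ y))
            rw [← TensorProduct.smul_tmul', map_smul] }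
      map_add' := fun u u' => by
        refine LinearMap.ext fun s => LinearMap.ext fun y => ?_
        change q (s ⊗ₜ mul (u + u') (σ y)) = q (s ⊗ₜ mul u (σ y)) + q (s ⊗ₜ mul u' (σ y))
        have h1 : mul (u + u') (σ y) = mul u (σ y) + mul u' (σ y) := by
          have h2 : mul (u + u') = mul u + mul u' := TensorProduct.ext' fun a v => by
            rw [LinearMap.add_apply, mul_tmul, mul_tmul, mul_tmul]
            rfl
          rw [h2]
          rfl
        rw [h1, TensorProduct.tmul_add, map_add]
      map_smul' := fun c u => by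
        refine LinearMap.ext fun s => LinearMap.ext fun y => ?_
        change q (s ⊗ₜ mul (c • u) (σ y)) = c • q (s ⊗ₜ mul u (σ y))
        have h1 : mul (c • u) (σ y) = c • mul u (σ y) := by
          have h2 : mul (c • u) = c • mul u := TensorProduct.ext' fun a v => by
            rw [LinearMap.smul_apply, mul_tmul, mul_tmul]
            rfl
          rw [h2]
          rfl
        rw [h1, TensorProduct.tmul_smul, map_smul] }
  let c : R →ₗ[k] Module.End k (SV k R V) :=
    { toFun := fun s =>
        { toFun := fun y => q (s • σ y)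
          map_add' := fun x y => by
            rw [map_add, smul_add, map_add]
          map_smul' := fun c x => by
            have h1 : s • σ (c • x) = c • (s • σ x) := by
              rw [σ.map_smul c x, smul_comm s c (σ x)]
            change q (s • σ (c • x)) = c • q (s • σ x)
            rw [h1]
            exact q.map_smul c _ }
      map_add' := fun s s' => by
        refine LinearMap.ext fun y => ?_
        change q ((s + s') • σ y) = q (s • σ y) + q (s' • σ y)
        rw [add_smul, map_add]
      map_smul' := fun c s => by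
        refine LinearMap.ext fun y => ?_
        change q ((c • s) • σ y) = c • q (s • σ y)
        rw [smul_assoc, map_smul] }
  have hlin : ∀ t : R →ₐ[k] Module.End k V, (syzRep t).toLinearMap = c - L t.toLinearMap := by
    intro t
    refine LinearMap.ext fun s => LinearMap.ext fun y => ?_
    have hy : (Submodule.Quotient.mk (σ y) : SV k R V) = y := LinearMap.congr_fun hσ y
    change syzRep t s y = q (s • σ y) - q (s ⊗ₜ mul t.toLinearMap (σ y))
    conv_lhs => rw [← hy, syzRep_mk]
    rw [← map_sub]
    rfl
  obtain ⟨F, hF⟩ := F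
  change (fun t : R →ₐ[k] Module.End k V => F (syzRep t)) ∈ PolyF k R V
  have hF' : F ∈ Algebra.adjoin k (Set.range fun (i : Fin (Module.finrank k
    ((R →ₗ[k] Module.End k (SV k R V)) →ₗ[k] k))) => fun (t : R →ₐ[k] Module.End k (SV k R V)) =>
      Module.finBasis k ((R →ₗ[k] Module.End k (SV k R V)) →ₗ[k] k) i t.toLinearMap) := hF
  induction hF' using Algebra.adjoin_induction with
  | mem x hx =>
    obtain ⟨i, rfl⟩ := hx
    have e : (fun t : R →ₐ[k] Module.End k V =>
        Module.finBasis k ((R →ₗ[k] Module.End k (SV k R V)) →ₗ[k] k) i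
          (syzRep t).toLinearMap) =
        (fun _ => Module.finBasis k ((R →ₗ[k] Module.End k (SV k R V)) →ₗ[k] k) i c) -
        fun t : R →ₐ[k] Module.End k V =>
          (Module.finBasis k ((R →ₗ[k] Module.End k (SV k R V)) →ₗ[k] k) i ∘ₗ L)
            t.toLinearMap := by
      funext t
      rw [hlin t]
      exact LinearMap.map_sub (Module.finBasis k
        ((R →ₗ[k] Module.End k (SV k R V)) →ₗ[k] k) i) c (L t.toLinearMap)
    change (fun t : R →ₐ[k] Module.End k V =>
        Module.finBasis k ((R →ₗ[k] Module.End k (SV k R V)) →ₗ[k] k) i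
          (syzRep t).toLinearMap) ∈ PolyF k R V
    rw [e]
    exact (PolyF k R V).sub_mem (const_mem _ _) (mem_polyF _)
  | algebraMap r => exact (PolyF k R V).algebraMap_mem r
  | add x y hx hy ihx ihy => exact (PolyF k R V).add_mem (ihx hx) (ihy hy)
  | mul x y hx hy ihx ihy => exact (PolyF k R V).mul_mem (ihx hx) (ihy hy)

end

end Pool.Agent.Helper426GSC
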