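import Pool.Agent.Helper426_GSC.Semi
import Pool.Agent.Helper426_GSC.Gsc
import Pool.Agent.Helper426_Tach.BddDefs

set_option autoImplicit false
open CategoryTheory Pool.Agent.Helper426Tach Pool.Agent.Helper426TauT
open scoped TensorProduct

namespace Pool.Agent.Helper426GSC

section
variable {k : Type} [Field k] {R : Type} [Ring R] [Algebra k R] [Module.Finite k R]

theorem tensor_proj (V : Type) [AddCommGroup V] [Module k V] :
    Projective (ModuleCat.of R (R ⊗[k] V)) := by
  have h1 : Module.Free R (R ⊗[k] V) :=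
    Module.Free.of_basis (Algebra.TensorProduct.basis R (Module.Free.chooseBasis k V))
  have h2 : Module.Projective R (R ⊗[k] V) := inferInstance
  exact (IsProjective.iff_projective _).mp h2

/-- projective dimension is upper semicontinuous -/
theorem pd_nbhd (m : ℕ) : ∀ (V : Type) [AddCommGroup V] [Module k V] [Module.Finite k V]
    (ρ : R →ₐ[k] Module.End k V), HasProjectiveDimensionLT (ModuleCat.of R (Tw ρ)) (m + 1) →
    ∃ F : PolyF k R V, (F : (R →ₐ[k] Module.End k V) → k) ρ ≠ 0 ∧
      ∀ t, (F : (R →ₐ[k] Module.End k V) → k) t ≠ 0 →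
        HasProjectiveDimensionLT (ModuleCat.of R (Tw t)) (m + 1) := by
  induction m with
  | zero =>
    intro V _ _ _ ρ hρ
    have hP : Projective (ModuleCat.of R (Tw ρ)) :=
      projective_iff_hasProjectiveDimensionLT_one.mpr hρ
    have hP' : Module.Projective R (Tw ρ) := (IsProjective.iff_projective _).mpr hP
    obtain ⟨F, hF, h⟩ := rigid_nbhd ρ (ez_projective (P := ModuleCat.of R (Tw ρ))
      (X := ModuleCat.of R (Tw ρ)) hP' 0)
    refine ⟨F, hF, fun t ht => ?_⟩
    obtain ⟨e⟩ := h t ht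
    exact pd_retract (X := ModuleCat.of R (Tw t)) (Y := ModuleCat.of R (Tw ρ))
      e.symm.toLinearMap e.toLinearMap (LinearMap.ext fun x => e.apply_symm_apply x) _ hρ
  | succ m ih =>
    intro V _ _ _ ρ hρ
    have hT := tensor_proj (R := R) (k := k) V
    obtain ⟨hf, hfg, hg⟩ := syz_ses ρ
    have h1 : HasProjectiveDimensionLT (ModuleCat.of R (Tw (syzRep ρ))) (m + 1) :=
      (sc_shortExact _ _ hf hfg hg).hasProjectiveDimensionLT_X₁ (m + 1)
        (hasProjectiveDimensionLT_of_ge _ 1 _ (by omega)) hρ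
    obtain ⟨F, hF, h⟩ := ih (SV k R V) (syzRep ρ) h1
    refine ⟨⟨_, syzRep_poly F⟩, hF, fun t ht => ?_⟩
    obtain ⟨hf, hfg, hg⟩ := syz_ses t
    exact (sc_shortExact _ _ hf hfg hg).hasProjectiveDimensionLT_X₃ (m + 1) (h (syzRep t) ht)
      (hasProjectiveDimensionLT_of_ge _ 1 _ (by omega))

/-- finite projective dimensions of the module structures on V are bounded -/
theorem pd_bounded_rep (V : Type) [AddCommGroup V] [Module k V] [Module.Finite k V] :
    ∃ E : ℕ, ∀ ρ : R →ₐ[k] Module.End k V,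
      (∃ n, HasProjectiveDimensionLT (ModuleCat.of R (Tw ρ)) n) →
        HasProjectiveDimensionLT (ModuleCat.of R (Tw ρ)) E := by
  classical
  let X : Set (R →ₐ[k] Module.End k V) :=
    {ρ | ∃ n, HasProjectiveDimensionLT (ModuleCat.of R (Tw ρ)) n}
  have hch : ∀ ρ : R →ₐ[k] Module.End k V, ∃ (F : PolyF k R V) (m : ℕ), ρ ∈ X →
      (F : (R →ₐ[k] Module.End k V) → k) ρ ≠ 0 ∧
      ∀ t, (F : (R →ₐ[k] Module.End k V) → k) t ≠ 0 →
        HasProjectiveDimensionLT (ModuleCat.of R (Tw t)) m := by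
    intro ρ
    by_cases h : ρ ∈ X
    · obtain ⟨n, hn⟩ := id h
      obtain ⟨F, hF⟩ := pd_nbhd n V ρ (hasProjectiveDimensionLT_of_ge _ n _ (by omega))
      exact ⟨F, n + 1, fun _ => hF⟩
    · exact ⟨0, 0, fun h' => absurd h' h⟩
  choose F m hF using hch
  have hN := polyF_noeth k R V
  have hfg : (Submodule.span (PolyF k R V) (F '' X)).FG := IsNoetherian.noetherian _
  obtain ⟨s', hs', hspan⟩ := (Submodule.fg_span_iff_fg_span_finset_subset _).mp hfg
  obtain ⟨Y, hY, hYs⟩ := Finset.subset_set_image_iff.mp hs'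
  refine ⟨Y.sup m, fun ρ hρ => ?_⟩
  by_contra hno
  have hzero : ∀ σ ∈ Y, (F σ : (R →ₐ[k] Module.End k V) → k) ρ = 0 := by
    intro σ hσ
    by_contra hne
    have h1 := (hF σ (hY hσ)).2 ρ hne
    exact hno (hasProjectiveDimensionLT_of_ge _ (m σ) _ (Finset.le_sup hσ))
  let ev : PolyF k R V →+* k :=
    (Pi.evalRingHom (fun _ => k) ρ).comp (PolyF k R V).val.toRingHom
  have hle : Submodule.span (PolyF k R V) (↑s' : Set (PolyF k R V)) ≤ RingHom.ker ev := by
    rw [Submodule.span_le]
    intro x hx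
    rw [← hYs] at hx
    obtain ⟨σ, hσ, rfl⟩ := Finset.mem_image.mp hx
    exact hzero σ hσ
  have hmem : F ρ ∈ Submodule.span (PolyF k R V) (F '' X) :=
    Submodule.subset_span ⟨ρ, hρ, rfl⟩
  rw [hspan] at hmem
  exact (hF ρ hρ).1 (hle hmem)

end

/-- over a finite-dimensional algebra the finite projective dimensions of the modules generated by
d elements are bounded -/
theorem pd_bounded (k : Type) [Field k] (R : Type) [Ring R] [Algebra k R] [Module.Finite k R]
    (d : ℕ) : ∃ E : ℕ, ∀ X : ModuleCat.{0} R,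
      (∃ g : (Fin d → R) →ₗ[R] X, Function.Surjective g) →
        (∃ n, HasProjectiveDimensionLT X n) → HasProjectiveDimensionLT X E := by
  classical
  let D := Module.finrank k (Fin d → R)
  choose b hb using fun e : ℕ => pd_bounded_rep (k := k) (R := R) (Fin e → k)
  refine ⟨(Finset.range (D + 1)).sup b, ?_⟩
  rintro X ⟨g, hg⟩ ⟨n, hn⟩
  let _ : Module k X := Module.compHom X (algebraMap k R)
  have _ : IsScalarTower k R X := ⟨fun c r x => by
    rw [Algebra.smul_def, mul_smul]
    rfl⟩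
  have hfX : Module.Finite k X := Module.Finite.of_surjective (g.restrictScalars k) hg
  have hle : Module.finrank k X ≤ D :=
    LinearMap.finrank_le_finrank_of_surjective (f := g.restrictScalars k) hg
  let e := Module.finrank k X
  let β : X ≃ₗ[k] (Fin e → k) := (Module.finBasis k X).equivFun
  let ρ : R →ₐ[k] Module.End k (Fin e → k) :=
    ((β.conjAlgEquiv k).toAlgHom).comp (Algebra.lsmul k k X)
  have hρ : ∀ r x, ρ r (β x) = β (r • x) := by
    intro r x
    change β (r • β.symm (β x)) = β (r • x)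
    rw [LinearEquiv.symm_apply_apply]
  let E : X ≃ₗ[R] Tw ρ :=
    { toFun := fun x => β x
      invFun := fun v => β.symm v
      left_inv := β.left_inv
      right_inv := β.right_inv
      map_add' := fun x y => map_add β x y
      map_smul' := fun r x => (hρ r x).symm }
  have h1 : HasProjectiveDimensionLT (ModuleCat.of R (Tw ρ)) n :=
    pd_retract (X := ModuleCat.of R (Tw ρ)) (Y := X) E.symm.toLinearMap E.toLinearMap
      (LinearMap.ext fun v => E.apply_symm_apply v) n hn
  have h2 := hb e ρ ⟨n, h1⟩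
  have h3 : HasProjectiveDimensionLT X (b e) :=
    pd_retract (X := X) (Y := ModuleCat.of R (Tw ρ)) E.toLinearMap E.symm.toLinearMap
      (LinearMap.ext fun v => E.symm_apply_apply v) _ h2
  exact hasProjectiveDimensionLT_of_ge X (b e) _
    (Finset.le_sup (Finset.mem_range.mpr (Nat.lt_succ_of_le hle)))

section
variable {S : Type} [Ring S]

theorem pd_piFin {n : ℕ} (X : Fin n → ModuleCat.{0} S) (m : ℕ)
    (h : ∀ i, HasProjectiveDimensionLT (X i) m) :
    HasProjectiveDimensionLT (ModuleCat.of S (∀ i, X i)) m := by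
  induction n with
  | zero =>
    refine pd_zero (X := ModuleCat.of S (∀ i, X i)) ?_ m
    change Subsingleton (∀ i : Fin 0, X i)
    infer_instance
  | succ n ih =>
    let e : (∀ i : Fin (n + 1), X i) ≃ₗ[S] X 0 × (∀ i : Fin n, X i.succ) :=
      (Fin.consLinearEquiv S (fun i => X i)).symm
    exact pd_retract (X := ModuleCat.of S (∀ i, X i))
      (Y := ModuleCat.of S (X 0 × ModuleCat.of S (∀ i : Fin n, X i.succ))) e.toLinearMap
      e.symm.toLinearMap (LinearMap.ext fun x => e.symm_apply_apply x) m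
      (pd_prod m (h 0) (ih (fun i => X i.succ) fun i => h i.succ))

/-- finite projective dimensions of sums of modules generated by d elements are bounded -/
theorem bddsum_pd {d E : ℕ} (hE : ∀ X : ModuleCat.{0} S,
      (∃ g : (Fin d → S) →ₗ[S] X, Function.Surjective g) →
        (∃ n, HasProjectiveDimensionLT X n) → HasProjectiveDimensionLT X E)
    (Y : ModuleCat.{0} S) (hY : BddSum d Y) (h : ∃ n, HasProjectiveDimensionLT Y n) :
    HasProjectiveDimensionLT Y E := by
  classical
  obtain ⟨n, X, hX, ⟨e⟩⟩ := hY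
  obtain ⟨l, hl⟩ := h
  have h1 : ∀ i, HasProjectiveDimensionLT (X i) E := by
    intro i
    refine hE (X i) (hX i) ⟨l, ?_⟩
    refine pd_retract (X := X i) (Y := Y)
      (e.symm.toLinearMap ∘ₗ LinearMap.single S (fun i => (X i : Type)) i)
      (LinearMap.proj i ∘ₗ e.toLinearMap) (LinearMap.ext fun x => ?_) l hl
    change (e (e.symm (Pi.single i x))) i = x
    rw [LinearEquiv.apply_symm_apply, Pi.single_eq_same]
  exact pd_retract (X := Y) (Y := ModuleCat.of S (∀ i, X i)) e.toLinearMap e.symm.toLinearMap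
    (LinearMap.ext fun x => e.symm_apply_apply x) E (pd_piFin X E h1)

end

/-- BddCosyz M d: for infinitely many j some j-th cosyzygy of M is a finite direct sum of modules
generated by d elements. -/
def BddCosyz {R : Type} [Ring R] (M : ModuleCat.{0} R) (d : ℕ) : Prop :=
  ∀ m : ℕ, ∃ j : ℕ, m ≤ j ∧ ∃ Y : ModuleCat.{0} R, Cosyz R j M Y ∧ BddSum d Y

theorem gsc_bdd (k : Type) [Field k] (A : Type) [Ring A] [Algebra k A] [Module.Finite k A]
    (d : ℕ) (hI : BddCosyz (ModuleCat.of Aᵐᵒᵖ A) d)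
    (h : ∃ n, HasInjectiveDimensionLE (ModuleCat.of A A) n) :
    ∃ n, HasInjectiveDimensionLE (ModuleCat.of Aᵐᵒᵖ A) n := by
  have h1 : Module.Finite k Aᵐᵒᵖ := Module.Finite.equiv (MulOpposite.opLinearEquiv k)
  obtain ⟨E, hE⟩ := pd_bounded k Aᵐᵒᵖ d
  obtain ⟨j, hj, Y, hY, hYs⟩ := hI (E + 1)
  obtain ⟨j, rfl⟩ : ∃ j', j = j' + 1 := ⟨j - 1, by omega⟩
  have hA : ∃ n, HasProjectiveDimensionLT (ModuleCat.of Aᵐᵒᵖ A) n := by
    have := freeB (B := A)
    have h2 : Module.Projective Aᵐᵒᵖ A := inferInstance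
    have h3 : Projective (ModuleCat.of Aᵐᵒᵖ A) := (IsProjective.iff_projective _).mp h2
    exact ⟨1, projective_iff_hasProjectiveDimensionLT_one.mp h3⟩
  have hYpd := cosyz_pd (inj_pd k h) hY hA
  have h2 := bddsum_pd hE Y hYs hYpd
  have h3 : HasProjectiveDimensionLT Y (j + 1) := hasProjectiveDimensionLT_of_ge Y E _ (by omega)
  have h4 := id_of_cosyz hY h3
  exact ⟨j, by rwa [Nat.add_comm] at h4⟩

end Pool.Agent.Helper426GSC
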