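import Pool.Agent.Helper426_GSC.Dual2
import Pool.Agent.Helper426_TauT.BddT

set_option autoImplicit false
open CategoryTheory Pool.Agent.Helper426Tach Pool.Agent.Helper426TauT

namespace Pool.Agent.Helper426GSC

/-- MixedSyz G d Y: the module Y is isomorphic to Y1 × Y2, where Y1 has an exact sequence
0 → V1 → V0 → Y1 → 0 with V1 and V0 finite direct sums of copies of the modules G a, and Y2 is a
finite direct sum of modules generated by d elements. -/
def MixedSyz {R : Type} [Ring R] {N : ℕ} (G : Fin N → ModuleCat.{0} R) (d : ℕ)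
    (Y : ModuleCat.{0} R) : Prop :=
  ∃ Y1 Y2 : ModuleCat.{0} R, Nonempty (Y ≃ₗ[R] (Y1 × Y2)) ∧ TwoStep G Y1 ∧ BddSum d Y2

/-- MixedAlg R: there are n, d and finitely many finitely generated modules G a such that every
finitely generated left module has an n-th syzygy Y satisfying MixedSyz G d Y. -/
def MixedAlg (R : Type) [Ring R] : Prop :=
  ∃ (n d N : ℕ) (G : Fin N → ModuleCat.{0} R), (∀ a, Module.Finite R (G a)) ∧
    ∀ M : ModuleCat.{0} R, Module.Finite R M →
      ∃ Y : ModuleCat.{0} R, Syz R n M Y ∧ MixedSyz G d Y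

section
variable {S : Type} [Ring S]

theorem syz_comp {m n : ℕ} {M X Y : ModuleCat.{0} S} (h1 : Syz S m M X) (h2 : Syz S n X Y) :
    Syz S (m + n) M Y := by
  induction h2 with
  | zero X => exact h1
  | @succ n X Z P Y hX f g hfin hproj h ih => exact Syz.succ (ih h1) f g hfin hproj h

theorem cosyz_zero_inv {M Y : ModuleCat.{0} S} (h : Cosyz S 0 M Y) : Y = M := by
  cases h
  rfl

theorem cosyz_congr {j : ℕ} {M M' Y : ModuleCat.{0} S} (e : M ≃ₗ[S] M')
    (h : Cosyz S (j + 1) M Y) : Cosyz S (j + 1) M' Y := by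
  induction j generalizing Y with
  | zero =>
    obtain ⟨X, I, f, g, hX, hfin, hI, hS⟩ := cosyz_inv h
    obtain rfl := cosyz_zero_inv hX
    refine Cosyz.succ (Cosyz.zero M') (f ∘ₗ e.symm.toLinearMap) g hfin hI ⟨?_, ?_, hS.2.2⟩
    · intro x y hxy
      exact e.symm.injective (hS.1 hxy)
    · intro y
      constructor
      · intro hy
        obtain ⟨x, rfl⟩ := (hS.2.1 y).mp hy
        exact ⟨e x, by
          change f (e.symm (e x)) = f x
          rw [e.symm_apply_apply]⟩
      · rintro ⟨x, rfl⟩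
        exact (hS.2.1 _).mpr ⟨e.symm x, rfl⟩
  | succ n ih =>
    obtain ⟨X, I, f, g, hX, hfin, hI, hS⟩ := cosyz_inv h
    exact Cosyz.succ (ih hX) f g hfin hI hS

/-- rotation of a two-step resolution -/
theorem two_step_pd [IsArtinianRing (Subring.center S)] [Module.Finite (Subring.center S) S]
    {N : ℕ} (G : Fin N → ModuleCat.{0} S) (hG : ∀ a, Module.Finite S (G a)) :
    ∃ E : ℕ, ∀ Y : ModuleCat.{0} S, Module.Finite S Y → TwoStep G Y →
      (∃ n, HasProjectiveDimensionLT Y n) → HasProjectiveDimensionLT Y E := by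
  let G' : Fin (N + 1) → ModuleCat.{0} S := Fin.cons (ModuleCat.of S S) G
  have hG' : ∀ a, Module.Finite S (G' a) := by
    intro a
    refine Fin.cases ?_ ?_ a
    · change Module.Finite S S
      infer_instance
    · intro i
      exact hG i
  obtain ⟨E, hE⟩ := it_bound G' hG'
  refine ⟨E + 1, fun Y hYf hY hpd => ?_⟩
  obtain ⟨c1, c0, f, g, hf, hfg, hg⟩ := hY
  obtain ⟨m, p, hp⟩ := Module.Finite.exists_fin' S Y
  obtain ⟨q, hq⟩ := Module.projective_lifting_property g p hg
  have hq' : ∀ a, g (q a) = p a := fun a => LinearMap.congr_fun hq a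
  let Φ : (Bk G c1 × (Fin m → S)) →ₗ[S] Bk G c0 := f.coprod q
  have hΦ : ∀ v, Φ v = f v.1 + q v.2 := fun v => rfl
  have hΦs : Function.Surjective Φ := by
    intro w
    obtain ⟨a, ha⟩ := hp (g w)
    have h1 : g (w - q a) = 0 := by rw [map_sub, hq', ha, sub_self]
    obtain ⟨v, hv⟩ := (hfg _).mp h1
    exact ⟨(v, a), by rw [hΦ, hv, sub_add_cancel]⟩
  let K := LinearMap.ker Φ
  have hpK : ∀ v ∈ K, p v.2 = 0 := by
    intro v hv
    have h1 : f v.1 + q v.2 = 0 := hv
    have h2 : g (f v.1) + g (q v.2) = 0 := by rw [← map_add, h1, map_zero]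
    rw [(hfg (f v.1)).mpr ⟨v.1, rfl⟩, zero_add, hq'] at h2
    exact h2
  let θ : K →ₗ[S] LinearMap.ker p :=
    { toFun := fun v => ⟨v.1.2, hpK v.1 v.2⟩
      map_add' := fun _ _ => rfl
      map_smul' := fun _ _ => rfl }
  have hθ : Function.Bijective θ := by
    constructor
    · intro u v huv
      have h1 : u.1.2 = v.1.2 := congrArg (fun z : LinearMap.ker p => z.1) huv
      have h2 : f u.1.1 + q u.1.2 = 0 := u.2
      have h3 : f v.1.1 + q v.1.2 = 0 := v.2
      have h4 : f u.1.1 = f v.1.1 := by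
        rw [h1] at h2
        exact add_right_cancel (h2.trans h3.symm)
      exact Subtype.ext (Prod.ext (hf h4) h1)
    · rintro ⟨a, ha⟩
      have h1 : g (- q a) = 0 := by
        rw [map_neg, hq', show p a = 0 from ha, neg_zero]
      obtain ⟨v, hv⟩ := (hfg _).mp h1
      exact ⟨⟨(v, a), by
        change f v + q a = 0
        rw [hv, neg_add_cancel]⟩, rfl⟩
  let e := LinearEquiv.ofBijective θ hθ
  have hS2 : SES (X := ModuleCat.of S (LinearMap.ker p)) (Y := ModuleCat.of S (Fin m → S)) (Z := Y)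
      (LinearMap.ker p).subtype p :=
    ⟨Subtype.val_injective, fun x => by
      constructor
      · intro h
        exact ⟨⟨x, h⟩, rfl⟩
      · rintro ⟨z, rfl⟩
        exact z.2, hp⟩
  have hSy : Syz S 1 Y (ModuleCat.of S (LinearMap.ker p)) :=
    Syz.succ (P := ModuleCat.of S (Fin m → S)) (Syz.zero Y) _ _
      (by
        change Module.Finite S (Fin m → S)
        infer_instance)
      (by
        change Module.Projective S (Fin m → S)
        infer_instance) hS2
  have hpk : ∃ n, HasProjectiveDimensionLT (ModuleCat.of S (LinearMap.ker p)) n := by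
    obtain ⟨n, hn⟩ := hpd
    exact ⟨n + 1, syz_pd hSy (n + 1) (by omega) (hasProjectiveDimensionLT_of_ge Y n _ (by omega))⟩
  have hK : ∃ n, HasProjectiveDimensionLT (ModuleCat.of S K) n := by
    obtain ⟨n, hn⟩ := hpk
    exact ⟨n, pd_retract (X := ModuleCat.of S K) (Y := ModuleCat.of S (LinearMap.ker p))
      e.toLinearMap e.symm.toLinearMap (LinearMap.ext fun x => e.symm_apply_apply x) n hn⟩
  have hS1 : SES (X := ModuleCat.of S K) (Y := ModuleCat.of S (Bk G c1 × (Fin m → S)))
      (Z := Bk G c0) K.subtype Φ :=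
    ⟨Subtype.val_injective, fun x => by
      constructor
      · intro h
        exact ⟨⟨x, h⟩, rfl⟩
      · rintro ⟨z, rfl⟩
        exact z.2, hΦs⟩
  have e1 : Nonempty ((ModuleCat.of S (Bk G c1 × (Fin m → S)) : ModuleCat.{0} S) ≃ₗ[S]
      Bk G' (Fin.cons m c1)) :=
    ⟨(LinearEquiv.prodComm S (Bk G c1) (Fin m → S)).trans
      (Fin.consLinearEquiv S (fun a : Fin (N + 1) =>
        (Fin ((Fin.cons m c1 : Fin (N + 1) → ℕ) a) → (G' a : Type))))⟩
  have e0 : Nonempty (Bk G c0 ≃ₗ[S] Bk G' (Fin.cons 0 c0)) := by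
    let e2 : (Bk G c0) ≃ₗ[S] ((Fin 0 → S) × (Bk G c0)) :=
      { toFun := fun x => (0, x)
        invFun := fun x => x.2
        map_add' := fun x y => by
          refine Prod.ext ?_ rfl
          exact Subsingleton.elim _ _
        map_smul' := fun c x => by
          refine Prod.ext ?_ rfl
          exact Subsingleton.elim _ _
        left_inv := fun _ => rfl
        right_inv := fun x => by
          refine Prod.ext ?_ rfl
          exact Subsingleton.elim _ _ }
    exact ⟨e2.trans (Fin.consLinearEquiv S (fun a : Fin (N + 1) =>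
        (Fin ((Fin.cons 0 c0 : Fin (N + 1) → ℕ) a) → (G' a : Type))))⟩
  have h1 := hE (ModuleCat.of S K) _ _ K.subtype Φ _ _ hS1 e1 e0 hK
  have h2 : HasProjectiveDimensionLT (ModuleCat.of S (LinearMap.ker p)) E :=
    pd_retract (X := ModuleCat.of S (LinearMap.ker p)) (Y := ModuleCat.of S K)
      e.symm.toLinearMap e.toLinearMap (LinearMap.ext fun x => e.apply_symm_apply x) E h1
  exact syz_pd_up hSy E h2

end

end Pool.Agent.Helper426GSC
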