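import Pool.Agent.Helper426_GSC.Sym1

set_option autoImplicit false
open CategoryTheory Pool.Agent.Helper426Tach Pool.Agent.Helper426TauT

namespace Pool.Agent.Helper426GSC

/-- the product of a module with bounded pieces -/
theorem pd_fst_snd {S : Type} [Ring S] {Y Y1 Y2 : ModuleCat.{0} S} (e : Y ≃ₗ[S] (Y1 × Y2))
    (h : ∃ n, HasProjectiveDimensionLT Y n) :
    (∃ n, HasProjectiveDimensionLT Y1 n) ∧ (∃ n, HasProjectiveDimensionLT Y2 n) := by
  obtain ⟨n, hn⟩ := h
  refine ⟨⟨n, ?_⟩, ⟨n, ?_⟩⟩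
  · refine pd_retract (X := Y1) (Y := Y) (e.symm.toLinearMap ∘ₗ LinearMap.inl S Y1 Y2)
      (LinearMap.fst S Y1 Y2 ∘ₗ e.toLinearMap) (LinearMap.ext fun x => ?_) n hn
    change (e (e.symm (x, 0))).1 = x
    rw [e.apply_symm_apply]
  · refine pd_retract (X := Y2) (Y := Y) (e.symm.toLinearMap ∘ₗ LinearMap.inr S Y1 Y2)
      (LinearMap.snd S Y1 Y2 ∘ₗ e.toLinearMap) (LinearMap.ext fun x => ?_) n hn
    change (e (e.symm (0, x))).2 = x
    rw [e.apply_symm_apply]

theorem pd_of_prod {S : Type} [Ring S] {Y Y1 Y2 : ModuleCat.{0} S} (e : Y ≃ₗ[S] (Y1 × Y2))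
    (n : ℕ) (h1 : HasProjectiveDimensionLT Y1 n) (h2 : HasProjectiveDimensionLT Y2 n) :
    HasProjectiveDimensionLT Y n :=
  pd_retract (X := Y) (Y := ModuleCat.of S (Y1 × Y2)) e.toLinearMap e.symm.toLinearMap
    (LinearMap.ext fun x => e.symm_apply_apply x) n (pd_prod n h1 h2)

/-- bounded finitistic dimension -/
theorem findim_bound (k : Type) [Field k] (A : Type) [Ring A] [Algebra k A] [Module.Finite k A]
    (hA : MixedAlg A) : ∃ E : ℕ, ∀ M : ModuleCat.{0} A, Module.Finite A M →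
      (∃ n, HasProjectiveDimensionLT M n) → HasProjectiveDimensionLT M E := by
  obtain ⟨hfin, hart⟩ := center_artin k A
  have hartR : IsArtinianRing A := IsArtinianRing.of_finite (Subring.center A) A
  obtain ⟨n, d, N, G, hG, hM⟩ := hA
  obtain ⟨E1, hE1⟩ := two_step_pd G hG
  obtain ⟨E2, hE2⟩ := pd_bounded k A d
  refine ⟨max E1 E2 + n, fun M hMf hMpd => ?_⟩
  obtain ⟨Y, hY, Y1, Y2, ⟨e⟩, hY1, hY2⟩ := hM M hMf
  have hYf : Module.Finite A Y := syz_finite hMf hY
  have hYpd : ∃ m, HasProjectiveDimensionLT Y m := by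
    obtain ⟨m, hm⟩ := hMpd
    exact ⟨m + 1, syz_pd hY (m + 1) (by omega) (hasProjectiveDimensionLT_of_ge M m _ (by omega))⟩
  obtain ⟨hp1, hp2⟩ := pd_fst_snd e hYpd
  have hY1f : Module.Finite A Y1 :=
    Module.Finite.of_surjective (LinearMap.fst A Y1 Y2 ∘ₗ e.toLinearMap) (by
      intro y
      exact ⟨e.symm (y, 0), by
        change (e (e.symm (y, 0))).1 = y
        rw [e.apply_symm_apply]⟩)
  have h1 := hE1 Y1 hY1f hY1 hp1
  have h2 := bddsum_pd hE2 Y2 hY2 hp2
  exact syz_pd_up hY _ (pd_of_prod e _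
    (hasProjectiveDimensionLT_of_ge Y1 E1 _ (le_max_left _ _))
    (hasProjectiveDimensionLT_of_ge Y2 E2 _ (le_max_right _ _)))

/-- transport of injective dimension along an isomorphism -/
theorem id_equiv {S : Type} [Ring S] {X Y : ModuleCat.{0} S} (e : X ≃ₗ[S] Y) (n : ℕ)
    (h : HasInjectiveDimensionLT Y n) : HasInjectiveDimensionLT X n := by
  have hr : Retract X Y := ⟨ModuleCat.ofHom e.toLinearMap, ModuleCat.ofHom e.symm.toLinearMap, by
    apply ModuleCat.hom_ext
    exact LinearMap.ext fun x => e.symm_apply_apply x⟩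
  exact hr.hasInjectiveDimensionLT n

section
variable {R S Q : Type} [Ring R] [Ring S] [AddCommGroup Q] [Module R Q] [Module S Q]
  [SMulCommClass R S Q]

/-- the second direction, for a bimodule duality between R and S -/
theorem dir2 (k : Type) [Field k] [Algebra k S] [Module.Finite k S] (hS : MixedAlg S)
    (hQ : Module.Injective R Q) (hQS : Module.Injective S Q)
    (hQfR : Module.Finite R Q) (hQfS : Module.Finite S Q)
    (hemb : ∀ (M : ModuleCat.{0} R), Module.Finite R M →
      ∃ (n : ℕ) (e : M →ₗ[R] (Fin n → Q)), Function.Injective e)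
    (hEnd : Module.Projective S (Q →ₗ[R] Q))
    (hembS : ∀ (M : ModuleCat.{0} S), Module.Finite S M →
      ∃ (n : ℕ) (e : M →ₗ[S] (Fin n → Q)), Function.Injective e)
    (h : ∃ n, HasInjectiveDimensionLE (ModuleCat.of R R) n) :
    ∃ n, HasInjectiveDimensionLE (ModuleCat.of S S) n := by
  obtain ⟨E, hE⟩ := findim_bound k S hS
  have hinj := inj_pdG hQ hQfR hemb hEnd hembS h
  have hnS : IsArtinianRing S := by
    obtain ⟨hfin, hart⟩ := center_artin k S
    exact IsArtinianRing.of_finite (Subring.center S) S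
  have hfA : Module.Finite S (ModuleCat.of S S) := by
    change Module.Finite S S
    infer_instance
  have hQi : Module.Injective S (ModuleCat.of S Q) := by
    change Module.Injective S Q
    exact hQS
  obtain ⟨Z, r, ι, π, hZ0, hZf, hι, hex, hπ, -⟩ := exists_coseq
    (Q := ModuleCat.of S Q) (by
      change Module.Finite S Q
      exact hQfS) hQi hembS (ModuleCat.of S S) hfA
  have hco : ∀ i, Cosyz S i (ModuleCat.of S S) (Z i) := by
    intro i
    induction i with
    | zero =>
      rw [hZ0]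
      exact Cosyz.zero _
    | succ i ih =>
      refine Cosyz.succ (I := ModuleCat.of S (Fin (r i) → Q)) ih (ι i) (π i) ?_ ?_
        ⟨hι i, hex i, hπ i⟩
      · change Module.Finite S (Fin (r i) → Q)
        infer_instance
      · exact injective_pow (Q := ModuleCat.of S Q) hQi (r i)
  have hApd : ∃ n, HasProjectiveDimensionLT (ModuleCat.of S S) n := by
    have h2 : Module.Projective S S := inferInstance
    have h3 : Projective (ModuleCat.of S S) := (IsProjective.iff_projective _).mp h2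
    exact ⟨1, projective_iff_hasProjectiveDimensionLT_one.mp h3⟩
  have h1 := hE (Z (E + 1)) (hZf _) (cosyz_pd hinj (hco (E + 1)) hApd)
  have h2 : HasProjectiveDimensionLT (Z (E + 1)) (E + 1) :=
    hasProjectiveDimensionLT_of_ge _ E _ (by omega)
  have h3 := id_of_cosyz (hco (E + 1)) h2
  exact ⟨E, by rwa [Nat.add_comm] at h3⟩

/-- the first direction, for a bimodule duality between R and S -/
theorem dir1 (k : Type) [Field k] [Algebra k S] [Module.Finite k S] [IsArtinianRing R]
    (hA : MixedAlg R)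
    (hQ : Module.Injective R Q) (hQS : Module.Injective S Q)
    (hQfR : Module.Finite R Q) (hQf : Module.Finite S Q)
    (hemb : ∀ (M : ModuleCat.{0} R), Module.Finite R M →
      ∃ (n : ℕ) (e : M →ₗ[R] (Fin n → Q)), Function.Injective e)
    (hembS : ∀ (M : ModuleCat.{0} S), Module.Finite S M →
      ∃ (n : ℕ) (e : M →ₗ[S] (Fin n → Q)), Function.Injective e)
    (h : ∃ n, HasInjectiveDimensionLE (ModuleCat.of R R) n)
    (X : ModuleCat.{0} S) (hX : Module.Projective S X) (eX : X ≃ₗ[S] (Q →ₗ[R] Q)) :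
    ∃ n, HasInjectiveDimensionLE X n := by
  obtain ⟨hfin, hart⟩ := center_artin k S
  have hnS : IsArtinianRing S := IsArtinianRing.of_finite (Subring.center S) S
  have hEnd : Module.Projective S (Q →ₗ[R] Q) := Module.Projective.of_equiv eX
  obtain ⟨n, d, N, G, hG, hM⟩ := hA
  obtain ⟨E1, hE1⟩ := it_bound (fun a => HG S Q (G a)) fun a => hg_finite hQf _ (hG a)
  have hfree : Module.Finite R (ModuleCat.of R (Fin d → R)) := by
    change Module.Finite R (Fin d → R)
    infer_instance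
  obtain ⟨d', hd'⟩ := gen_of_inj k S (HG S Q (ModuleCat.of R (Fin d → R)))
    (hg_finite hQf _ hfree)
  obtain ⟨E2, hE2⟩ := pd_bounded k S d'
  have hQfm : Module.Finite R (ModuleCat.of R Q) := by
    change Module.Finite R Q
    exact hQfR
  obtain ⟨M', hM'⟩ := exists_syz (max E1 E2 + 1) (ModuleCat.of R Q) hQfm
  obtain ⟨Y, hY, Y1, Y2, ⟨e⟩, ⟨c1, c0, f, g, hfg⟩, m2, X2, hX2, ⟨e2⟩⟩ :=
    hM M' (syz_finite hQfm hM')
  have hY' := syz_comp hM' hY
  rw [show max E1 E2 + 1 + n = (max E1 E2 + n) + 1 by omega] at hY'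
  have hco : Cosyz S ((max E1 E2 + n) + 1) X (HG S Q Y) :=
    cosyz_congr (M := HG S Q (ModuleCat.of R Q)) (M' := X) eX.symm (cosyz_of_syz hQ hQS hQf hY')
  have hApd : ∃ n, HasProjectiveDimensionLT X n := by
    have h3 : Projective X := (IsProjective.iff_projective _).mp hX
    exact ⟨1, projective_iff_hasProjectiveDimensionLT_one.mp h3⟩
  have hYpd := cosyz_pd (inj_pdG hQ hQfR hemb hEnd hembS h) hco hApd
  -- the dual of a product
  let eY : HG S Q Y ≃ₗ[S] (HG S Q Y1 × HG S Q Y2) :=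
    { toFun := fun u => (u ∘ₗ e.symm.toLinearMap ∘ₗ LinearMap.inl R Y1 Y2,
        u ∘ₗ e.symm.toLinearMap ∘ₗ LinearMap.inr R Y1 Y2)
      invFun := fun v => (v.1.coprod v.2) ∘ₗ e.toLinearMap
      map_add' := fun _ _ => rfl
      map_smul' := fun _ _ => rfl
      left_inv := fun u => LinearMap.ext fun y => by
        change u (e.symm ((e y).1, 0)) + u (e.symm (0, (e y).2)) = u y
        rw [← map_add, ← map_add, Prod.mk_add_mk, add_zero, zero_add, Prod.mk.eta,
          e.symm_apply_apply]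
      right_inv := fun v => by
        refine Prod.ext (LinearMap.ext fun y => ?_) (LinearMap.ext fun y => ?_)
        · change v.1 (e (e.symm (y, 0))).1 + v.2 (e (e.symm (y, 0))).2 = v.1 y
          rw [e.apply_symm_apply, map_zero, add_zero]
        · change v.1 (e (e.symm (0, y))).1 + v.2 (e (e.symm (0, y))).2 = v.2 y
          rw [e.apply_symm_apply, map_zero, zero_add] }
  obtain ⟨hp1, hp2⟩ := pd_fst_snd eY hYpd
  have h1 : HasProjectiveDimensionLT (HG S Q Y1) E1 :=
    hE1 _ _ _ _ _ c0 c1 (hg_ses hQ f g hfg) (hg_bk G c0) (hg_bk G c1) hp1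
  have h2 : HasProjectiveDimensionLT (HG S Q Y2) E2 := by
    refine bddsum_pd hE2 _ ⟨m2, fun i => HG S Q (X2 i), fun i => ?_, ?_⟩ hp2
    · obtain ⟨s, hs⟩ := hX2 i
      refine hd' _ ⟨preG S Q (M := ModuleCat.of R (Fin d → R)) (N := X2 i) s, ?_⟩
      intro u v huv
      refine LinearMap.ext fun x => ?_
      obtain ⟨y, rfl⟩ := hs x
      exact LinearMap.congr_fun huv y
    · obtain ⟨e3⟩ := hg_piFin (S := S) (Q := Q) X2
      let e4 : HG S Q Y2 ≃ₗ[S] HG S Q (ModuleCat.of R (∀ i, X2 i)) :=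
        { toFun := fun u => u ∘ₗ e2.symm.toLinearMap
          invFun := fun u => u ∘ₗ e2.toLinearMap
          map_add' := fun _ _ => rfl
          map_smul' := fun _ _ => rfl
          left_inv := fun u => LinearMap.ext fun y => by
            change u (e2.symm (e2 y)) = u y
            rw [e2.symm_apply_apply]
          right_inv := fun u => LinearMap.ext fun y => by
            change u (e2 (e2.symm y)) = u y
            rw [e2.apply_symm_apply] }
      exact ⟨e4.trans e3⟩
  have h3 : HasProjectiveDimensionLT (HG S Q Y) ((max E1 E2 + n) + 1) :=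
    pd_of_prod eY _
      (hasProjectiveDimensionLT_of_ge _ E1 _ (by
        have := le_max_left E1 E2
        omega))
      (hasProjectiveDimensionLT_of_ge _ E2 _ (by
        have := le_max_right E1 E2
        omega))
  have h4 := id_of_cosyz hco h3
  exact ⟨max E1 E2 + n, by rwa [Nat.add_comm] at h4⟩

end

/-- the Gorenstein symmetry for one-sided classes -/
theorem gsc_iff (k : Type) [Field k] (A : Type) [Ring A] [Algebra k A] [Module.Finite k A]
    (hA : MixedAlg A ∨ MixedAlg Aᵐᵒᵖ) :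
    (∃ n, HasInjectiveDimensionLE (ModuleCat.of A A) n) ↔
      (∃ n, HasInjectiveDimensionLE (ModuleCat.of Aᵐᵒᵖ A) n) := by
  have hk1 : Module.Finite k Aᵐᵒᵖ := Module.Finite.equiv (MulOpposite.opLinearEquiv k)
  have hnA : IsArtinianRing A := by
    obtain ⟨hfin, hart⟩ := center_artin k A
    exact IsArtinianRing.of_finite (Subring.center A) A
  have hnAo : IsArtinianRing Aᵐᵒᵖ := by
    obtain ⟨hfin, hart⟩ := center_artin k Aᵐᵒᵖ
    exact IsArtinianRing.of_finite (Subring.center Aᵐᵒᵖ) Aᵐᵒᵖ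
  let e : Aᵐᵒᵖ ≃ₗ[Aᵐᵒᵖ] A :=
    { toFun := fun x => x.unop
      invFun := fun x => MulOpposite.op x
      map_add' := fun _ _ => rfl
      map_smul' := fun _ _ => rfl
      left_inv := fun _ => rfl
      right_inv := fun _ => rfl }
  have hop1 : (∃ n, HasInjectiveDimensionLE (ModuleCat.of Aᵐᵒᵖ A) n) →
      ∃ n, HasInjectiveDimensionLE (ModuleCat.of Aᵐᵒᵖ Aᵐᵒᵖ) n := by
    rintro ⟨n, hn⟩
    exact ⟨n, id_equiv (X := ModuleCat.of Aᵐᵒᵖ Aᵐᵒᵖ) (Y := ModuleCat.of Aᵐᵒᵖ A) e _ hn⟩
  have hop2 : (∃ n, HasInjectiveDimensionLE (ModuleCat.of Aᵐᵒᵖ Aᵐᵒᵖ) n) →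
      ∃ n, HasInjectiveDimensionLE (ModuleCat.of Aᵐᵒᵖ A) n := by
    rintro ⟨n, hn⟩
    exact ⟨n, id_equiv (X := ModuleCat.of Aᵐᵒᵖ A) (Y := ModuleCat.of Aᵐᵒᵖ Aᵐᵒᵖ) e.symm _ hn⟩
  obtain ⟨eA⟩ := qd_end (k := k) (A := A)
  obtain ⟨eA'⟩ := qd_end' (k := k) (A := A)
  have hprojA : Module.Projective Aᵐᵒᵖ A := by
    have := freeB (B := A)
    infer_instance
  constructor
  · intro h
    rcases hA with hA | hA
    · exact dir1 (R := A) (S := Aᵐᵒᵖ) (Q := QD k A) k hA qd_injective qd_injective_op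
        qd_finite qd_finite_op (fun M hM => qd_embedding M) (fun M hM => qd_embedding_op M) h
        (ModuleCat.of Aᵐᵒᵖ A) hprojA eA
    · exact hop2 (dir2 (R := A) (S := Aᵐᵒᵖ) (Q := QD k A) k hA qd_injective qd_injective_op
        qd_finite qd_finite_op (fun M hM => qd_embedding M) end_proj
        (fun M hM => qd_embedding_op M) h)
  · intro h
    rcases hA with hA | hA
    · exact dir2 (R := Aᵐᵒᵖ) (S := A) (Q := QD k A) k hA qd_injective_op qd_injective
        qd_finite_op qd_finite (fun M hM => qd_embedding_op M) end_proj'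
        (fun M hM => qd_embedding M) (hop1 h)
    · exact dir1 (R := Aᵐᵒᵖ) (S := A) (Q := QD k A) k hA qd_injective_op qd_injective
        qd_finite_op qd_finite (fun M hM => qd_embedding_op M) (fun M hM => qd_embedding M)
        (hop1 h) (ModuleCat.of A A) (by
          change Module.Projective A A
          infer_instance) eA'

end Pool.Agent.Helper426GSC
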