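import Pool.Agent.Helper426_GSC.Sym2

set_option autoImplicit false
open CategoryTheory Pool.Agent.Helper426Tach Pool.Agent.Helper426TauT

namespace Pool.Agent.Helper426GSC

/-- MixedCosyz G d Y: the module Y is isomorphic to Y1 × Y2, where Y1 has an exact sequence
0 → Y1 → V0 → V1 → 0 with V0 and V1 finite direct sums of copies of the modules G a, and Y2 is a
finite direct sum of modules generated by d elements. -/
def MixedCosyz {R : Type} [Ring R] {N : ℕ} (G : Fin N → ModuleCat.{0} R) (d : ℕ)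
    (Y : ModuleCat.{0} R) : Prop :=
  ∃ Y1 Y2 : ModuleCat.{0} R, Nonempty (Y ≃ₗ[R] (Y1 × Y2)) ∧ CoTwoStep G Y1 ∧ BddSum d Y2

/-- MixedCoType M: there are d and finitely many finitely generated modules G a such that for
infinitely many j some j-th cosyzygy Y of M satisfies MixedCosyz G d Y. -/
def MixedCoType {R : Type} [Ring R] (M : ModuleCat.{0} R) : Prop :=
  ∃ (d N : ℕ) (G : Fin N → ModuleCat.{0} R), (∀ a, Module.Finite R (G a)) ∧
    ∀ m : ℕ, ∃ j : ℕ, m ≤ j ∧ ∃ Y : ModuleCat.{0} R, Cosyz R j M Y ∧ MixedCosyz G d Y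

/-- one direction, with a hypothesis on the right regular module only -/
theorem gsc_mixed (k : Type) [Field k] (A : Type) [Ring A] [Algebra k A] [Module.Finite k A]
    (hI : MixedCoType (ModuleCat.of Aᵐᵒᵖ A))
    (h : ∃ n, HasInjectiveDimensionLE (ModuleCat.of A A) n) :
    ∃ n, HasInjectiveDimensionLE (ModuleCat.of Aᵐᵒᵖ A) n := by
  have h1 : Module.Finite k Aᵐᵒᵖ := Module.Finite.equiv (MulOpposite.opLinearEquiv k)
  obtain ⟨hfin, hart⟩ := center_artin k Aᵐᵒᵖ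
  obtain ⟨d, N, G, hGf, hG⟩ := hI
  obtain ⟨E1, hE1⟩ := it_bound G hGf
  obtain ⟨E2, hE2⟩ := pd_bounded k Aᵐᵒᵖ d
  obtain ⟨j, hj, Y, hY, Y1, Y2, ⟨e⟩, ⟨c0, c1, f, g, hfg⟩, hY2⟩ := hG (max E1 E2 + 1)
  obtain ⟨j, rfl⟩ : ∃ j', j = j' + 1 := ⟨j - 1, by omega⟩
  have hA : ∃ n, HasProjectiveDimensionLT (ModuleCat.of Aᵐᵒᵖ A) n := by
    have := freeB (B := A)
    have h2 : Module.Projective Aᵐᵒᵖ A := inferInstance
    have h3 : Projective (ModuleCat.of Aᵐᵒᵖ A) := (IsProjective.iff_projective _).mp h2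
    exact ⟨1, projective_iff_hasProjectiveDimensionLT_one.mp h3⟩
  have hYpd := cosyz_pd (inj_pd k h) hY hA
  obtain ⟨hp1, hp2⟩ := pd_fst_snd e hYpd
  have h2 := hE1 Y1 _ _ f g c0 c1 hfg ⟨LinearEquiv.refl _ _⟩ ⟨LinearEquiv.refl _ _⟩ hp1
  have h3 := bddsum_pd hE2 Y2 hY2 hp2
  have h4 : HasProjectiveDimensionLT Y (j + 1) :=
    pd_of_prod e _
      (hasProjectiveDimensionLT_of_ge _ E1 _ (by
        have := le_max_left E1 E2
        omega))
      (hasProjectiveDimensionLT_of_ge _ E2 _ (by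
        have := le_max_right E1 E2
        omega))
  have h5 := id_of_cosyz hY h4
  exact ⟨j, by rwa [Nat.add_comm] at h5⟩

end Pool.Agent.Helper426GSC
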