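import Pool.Agent.Helper426_GSC.Sym1
import Pool.Agent.Helper426_Tach.Bdd

set_option autoImplicit false
open CategoryTheory Pool.Agent.Helper426Tach Pool.Agent.Helper426TauT

namespace Pool.Agent.Helper426GSC

/-- syzygies of a self-orthogonal module orthogonal to R, finite range -/
theorem syz_rigid_fin {R : Type} [Ring R] [HasExt.{0} (ModuleCat.{0} R)] {n : ℕ}
    {M Y : ModuleCat.{0} R} (hY : Syz R n M Y) (b : ℕ)
    (hMM : Subsingleton (Abelian.Ext.{0} M M 1))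
    (hMR : ∀ i, 1 ≤ i → i ≤ b → Subsingleton (Abelian.Ext.{0} M (ModuleCat.of R R) i)) :
    (∀ i, 1 ≤ i → i + n ≤ b → Subsingleton (Abelian.Ext.{0} Y (ModuleCat.of R R) i)) ∧
      (n + 1 ≤ b → Subsingleton (Abelian.Ext.{0} Y Y 1)) := by
  induction hY with
  | zero M => exact ⟨fun i hi hb => hMR i hi (by omega), fun _ => hMM⟩
  | @succ n M X P Y hX f g hfin hproj h ih =>
    obtain ⟨hf, hfg, hg⟩ := h
    obtain ⟨h1, h2⟩ := ih hMM hMR
    constructor
    · intro i hi hb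
      obtain ⟨i, rfl⟩ : ∃ i', i = i' + 1 := ⟨i - 1, by omega⟩
      exact ez_contra1 f g hf hfg hg (ez_projective hproj i) (h1 (i + 1 + 1) (by omega) (by omega))
    · intro hb
      refine ez_contra1 f g hf hfg hg (ez_projective hproj 0) ?_
      exact ez_cov1 f g hf hfg hg (ez_fgproj (h1 (1 + 1) (by omega) (by omega)) hproj hfin)
        (h2 (by omega))

/-- joining two families -/
def Jn {R : Type} [Ring R] {N N' : ℕ} (G : Fin N → ModuleCat.{0} R)
    (G' : Fin N' → ModuleCat.{0} R) (a : Fin (N + N')) : ModuleCat.{0} R :=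
  Sum.elim G G' (finSumFinEquiv.symm a)

theorem jn_equiv {R : Type} [Ring R] {N N' : ℕ} (G : Fin N → ModuleCat.{0} R)
    (G' : Fin N' → ModuleCat.{0} R) (c : Fin N → ℕ) (c' : Fin N' → ℕ) :
    ∃ m : Fin (N + N') → ℕ, Nonempty (((∀ a, Fin (c a) → G a) × (∀ a, Fin (c' a) → G' a)) ≃ₗ[R]
      (∀ a, Fin (m a) → Jn G G' a)) := by
  let F : Fin N ⊕ Fin N' → Type := fun s => Fin (Sum.elim c c' s) → (Sum.elim G G' s : ModuleCat.{0} R)
  refine ⟨fun a => Sum.elim c c' (finSumFinEquiv.symm a), ⟨?_⟩⟩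
  let E1 : (∀ s, F s) ≃ₗ[R] ((∀ i, F (Sum.inl i)) × (∀ i, F (Sum.inr i))) :=
    LinearEquiv.sumPiEquivProdPi R _ _ F
  let E2 : (∀ s, F s) ≃ₗ[R] (∀ a, F (finSumFinEquiv.symm a)) :=
    LinearEquiv.piCongrLeft' R F finSumFinEquiv
  exact E1.symm.trans E2

/-- over an algebra of mixed type, modules with vanishing self-extensions and vanishing extensions
to the regular module in a fixed finite range are projective -/
theorem mixed_uniform (k : Type) [Field k] (R : Type) [Ring R] [Algebra k R] [Module.Finite k R]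
    [HasExt.{0} (ModuleCat.{0} R)] (hR : MixedAlg R) :
    ∃ J : ℕ, ∀ A : ModuleCat.{0} R, Module.Finite R A →
      (∀ i, 1 ≤ i → i ≤ J → Subsingleton (Abelian.Ext.{0} A A i)) →
      (∀ i, 1 ≤ i → i ≤ J → Subsingleton (Abelian.Ext.{0} A (ModuleCat.of R R) i)) →
      Module.Projective R A := by
  classical
  obtain ⟨hfin, hart⟩ := center_finite k R
  have hartR : IsArtinianRing R := IsArtinianRing.of_finite (Subring.center R) R
  obtain ⟨n, d, N, G, hG, hM⟩ := hR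
  obtain ⟨N', G', hG', hrep⟩ := rigid_reps k R d
  let S : Finset ℕ := (Finset.range (2 * (N + N') + 1)).map (addRightEmbedding (n + 1))
  have hScard : S.card = 2 * (N + N') + 1 := by
    rw [Finset.card_map, Finset.card_range]
  let J := n + 2 * (N + N') + 1
  have hSJ : ∀ j ∈ S, 1 ≤ j ∧ j ≤ J ∧ n ≤ j := by
    intro j hj
    rw [Finset.mem_map] at hj
    obtain ⟨i, hi, rfl⟩ := hj
    rw [Finset.mem_range] at hi
    change 1 ≤ i + (n + 1) ∧ i + (n + 1) ≤ n + 2 * (N + N') + 1 ∧ n ≤ i + (n + 1)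
    omega
  refine ⟨J + 2, fun A hA hAA hAR => ?_⟩
  have hJn : ∀ a, Module.Finite R (Jn G G' a) := by
    intro a
    unfold Jn
    rcases finSumFinEquiv.symm a with b | b
    · exact hG b
    · exact hG' b
  refine main_syz R hart hfin A hA (N + N') (Jn G G') hJn S J (by omega)
    (fun j hj => ⟨(hSJ j hj).1, (hSJ j hj).2.1⟩) ?_ hAA hAR
  intro j hj Z hZ
  obtain ⟨hj1, hjJ, hjn⟩ := hSJ j hj
  obtain ⟨M', hM'⟩ := exists_syz (j - n) A hA
  obtain ⟨Y, hY', Y1, Y2, ⟨e⟩, ⟨c1, c0, f, g, hfg⟩, l, X, hXg, ⟨e2⟩⟩ :=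
    hM M' (syz_finite hA hM')
  have hY : Syz R j A Y := by
    have h1 := syz_comp hM' hY'
    rwa [show j - n + n = j by omega] at h1
  have hYY : Subsingleton (Abelian.Ext.{0} Y Y 1) :=
    (syz_rigid_fin hY (J + 2) (hAA 1 le_rfl (by omega)) hAR).2 (by omega)
  -- the small pieces are rigid
  have hX : ∀ i, ∃ a, Nonempty (G' a ≃ₗ[R] X i) := by
    intro i
    refine hrep (X i) (hXg i) ?_
    let s : X i →ₗ[R] Y := e.symm.toLinearMap ∘ₗ LinearMap.inr R Y1 Y2 ∘ₗ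
      e2.symm.toLinearMap ∘ₗ LinearMap.single R (fun i => X i) i
    let r : Y →ₗ[R] X i := LinearMap.proj i ∘ₗ e2.toLinearMap ∘ₗ LinearMap.snd R Y1 Y2 ∘ₗ
      e.toLinearMap
    have hrs : r ∘ₗ s = LinearMap.id := by
      refine LinearMap.ext fun x => ?_
      change (e2 (e (e.symm ((0 : Y1), e2.symm (Pi.single i x)))).2) i = x
      rw [LinearEquiv.apply_symm_apply]
      change (e2 (e2.symm (Pi.single i x))) i = x
      rw [LinearEquiv.apply_symm_apply, Pi.single_eq_same]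
    exact ez_retract s r hrs (ez_retract_right s r hrs hYY)
  obtain ⟨m, ⟨E1⟩⟩ := group_factors G' X hX
  obtain ⟨P, Q, hP1, hP2, hQ1, hQ2, ⟨E2⟩⟩ := syz_schanuel (isSyz_of_syz hZ) hY
  obtain ⟨m0, ⟨F0⟩⟩ := jn_equiv G G' c0 m
  obtain ⟨m1, ⟨F1⟩⟩ := jn_equiv G G' c1 (fun _ => 0)
  -- the sequence 0 → V1 → V0 × Y2 × Q → Z × P → 0
  let ff : ((∀ a, Fin (m1 a) → Jn G G' a) × ModuleCat.of R PUnit.{1}) →ₗ[R]
      ((∀ a, Fin (m0 a) → Jn G G' a) × Q) :=
    (LinearMap.inl R _ _) ∘ₗ F0.toLinearMap ∘ₗ (LinearMap.inl R _ _) ∘ₗ f ∘ₗ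
      (LinearMap.fst R _ _) ∘ₗ F1.symm.toLinearMap ∘ₗ (LinearMap.fst R _ _)
  let E3 : ((Y1 × (∀ a, Fin (m a) → G' a)) × Q) ≃ₗ[R] (Z × P) :=
    ((((LinearEquiv.refl R Y1).prodCongr (E1.trans e2.symm)).trans e.symm).prodCongr
      (LinearEquiv.refl R Q)).trans E2.symm
  let g1 : ((Bk G c0 × (∀ a, Fin (m a) → G' a)) × Q) →ₗ[R]
      ((Y1 × (∀ a, Fin (m a) → G' a)) × Q) := (g.prodMap LinearMap.id).prodMap LinearMap.id
  let gg : ((∀ a, Fin (m0 a) → Jn G G' a) × Q) →ₗ[R] (Z × P) :=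
    E3.toLinearMap ∘ₗ g1 ∘ₗ (F0.symm.prodCongr (LinearEquiv.refl R Q)).toLinearMap
  have hff : ∀ x, ff x = (F0 (f (F1.symm x.1).1, 0), 0) := fun x => rfl
  have hgg : ∀ y, gg y = E3 ((g (F0.symm y.1).1, (F0.symm y.1).2), y.2) := fun y => rfl
  refine ⟨P, Q, ModuleCat.of R PUnit.{1}, m0, m1, ff, gg, hP1, hP2, hQ1, ?_, ?_, ?_, ?_, ?_, ?_⟩
  · change Module.Finite R PUnit.{1}
    infer_instance
  · intro t ht ht'
    obtain ⟨t, rfl⟩ : ∃ t', t = t' + 1 := ⟨t - 1, by omega⟩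
    exact ez_fgproj (hAR (t + 1) (by omega) (by omega)) hQ2 hQ1
  · intro t ht _
    obtain ⟨t, rfl⟩ : ∃ t', t = t' + 1 := ⟨t - 1, by omega⟩
    refine ez_injective ?_ t
    change Module.Injective R PUnit.{1}
    exact ⟨fun _ _ _ _ _ _ _ _ _ => ⟨0, fun x => Subsingleton.elim _ _⟩⟩
  · intro x y hxy
    rw [hff, hff] at hxy
    have h1 := congrArg Prod.fst hxy
    have h2 := congrArg Prod.fst (F0.injective h1)
    have h3 : (F1.symm x.1).1 = (F1.symm y.1).1 := hfg.1 h2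
    have h4 : F1.symm x.1 = F1.symm y.1 := by
      refine Prod.ext h3 ?_
      funext a i
      exact i.elim0
    refine Prod.ext (F1.symm.injective h4) (Subsingleton.elim _ _)
  · intro y
    rw [hgg]
    constructor
    · intro hy
      have h1 : ((g (F0.symm y.1).1, (F0.symm y.1).2), y.2) = 0 := E3.map_eq_zero_iff.mp hy
      have h2 : g (F0.symm y.1).1 = 0 := congrArg (fun z => z.1.1) h1
      have h3 : (F0.symm y.1).2 = 0 := congrArg (fun z => z.1.2) h1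
      have h4 : y.2 = 0 := congrArg (fun z => z.2) h1
      obtain ⟨v, hv⟩ := (hfg.2.1 _).mp h2
      refine ⟨(F1 (v, fun _ i => i.elim0), PUnit.unit), ?_⟩
      rw [hff]
      refine Prod.ext ?_ h4.symm
      change F0 (f (F1.symm (F1 (v, fun _ i => i.elim0))).1, 0) = y.1
      rw [F1.symm_apply_apply]
      apply F0.symm.injective
      rw [F0.symm_apply_apply]
      exact Prod.ext hv h3.symm
    · rintro ⟨x, rfl⟩
      rw [hff]
      change E3 ((g (F0.symm (F0 (f (F1.symm x.1).1, 0))).1,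
        (F0.symm (F0 (f (F1.symm x.1).1, 0))).2), 0) = 0
      rw [F0.symm_apply_apply]
      change E3 ((g (f (F1.symm x.1).1), 0), 0) = 0
      rw [(hfg.2.1 _).mpr ⟨_, rfl⟩]
      exact E3.map_zero
  · intro z
    obtain ⟨w, rfl⟩ := E3.surjective z
    obtain ⟨v, hv⟩ := hfg.2.2 w.1.1
    refine ⟨(F0 (v, w.1.2), w.2), ?_⟩
    rw [hgg]
    change E3 ((g (F0.symm (F0 (v, w.1.2))).1, (F0.symm (F0 (v, w.1.2))).2), w.2) = E3 w
    rw [F0.symm_apply_apply]
    change E3 ((g v, w.1.2), w.2) = E3 w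
    rw [hv]

end Pool.Agent.Helper426GSC
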